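import Pool.Agent.Lib.MP_1a7d7d_co.Locus

/-!
# Finite inversive planes of odd order: the second axiom of orthogonality

The axiom (O2) for the relation of the problem, its equivalence with the statement that all tangency loci are circles,
and consequences.
-/

set_option autoImplicit false

namespace Pool.Agent.Lib.MP_1a7d7d_co

open Finset

universe u

variable {P : Type u} [Fintype P] [DecidableEq P]

namespace InvPlane

variable {n : ℕ} {B : Finset (Finset P)} (h : InvPlane n B)

include h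

/-- if all loci are circles, `C` is the locus of its locus -/
theorem locus_locus (hL : LociAreCircles B) {C : Finset P} (hC : C ∈ B) {p q : P} (hp : p ∈ C)
    (hq : q ∈ C) (hqp : q ≠ p) : locus B (locus B C p q) p q = C := by
  have hM := hL C hC p hp q hq hqp
  symm
  apply Finset.eq_of_subset_of_card_le
  · intro x hx
    rw [mem_locus]
    by_cases hxp : x = p
    · exact Or.inl hxp
    by_cases hxq : x = q
    · exact Or.inr (Or.inl hxq)
    refine Or.inr (Or.inr ?_)
    have hxM : x ∉ locus B C p q := by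
      intro hxM
      rcases mem_of_mem_locus hx hxM with e | e
      · exact hxp e
      · exact hxq e
    have hE := hL C hC p hp x hx hxp
    have hF := hL C hC q hq x hx hxq
    have h1 : locus B C p x ∩ locus B C p q = {p} := h.locus_inter hC hp hx hq hxp hqp hxq
    have h2 : locus B C q x ∩ locus B C p q = {q} := by
      rw [locus_symm B C p q]
      exact h.locus_inter hC hq hx hp hxq hqp.symm hxp
    have h3 : locus B C p x ∩ locus B C q x = {x} := by
      rw [locus_symm B C p x, locus_symm B C q x]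
      exact h.locus_inter hC hx hp hq (Ne.symm hxp) (Ne.symm hxq) hqp.symm
    exact (h.mem_loc_iff hM (left_mem_locus B C p q) (right_mem_locus B C p q) hxM hE
      (right_mem_locus B C p x) h1 hF (right_mem_locus B C q x) h2).2 h3
  · rw [h.locus_card hM (left_mem_locus B C p q) (right_mem_locus B C p q) hqp.symm,
      h.card_circle C hC]

theorem loci_of_hasPerp (hE : HasPerp B) : LociAreCircles B := by
  intro C hC p hp q hq hqp
  have key : ∀ D : {D // D ∈ thr B p q}, ∃ D' : {D // D ∈ thr B p q}, locus B D'.1 p q = D.1 := by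
    rintro ⟨D, hD⟩
    obtain ⟨hDB, hpD, hqD⟩ := Finset.mem_filter.1 hD
    obtain ⟨D', hD', hpD', hqD', hperp⟩ := hE D hDB p hpD q hqD hqp
    refine ⟨⟨D', Finset.mem_filter.2 ⟨hD', hpD', hqD'⟩⟩, ?_⟩
    obtain ⟨s, hs, hsp, e⟩ := h.exists_locus hD' hDB hpD' hpD hperp
    have hqs : q = s := by
      rw [e] at hqD
      rcases mem_of_mem_locus hqD' hqD with e' | e'
      · exact absurd e' hqp
      · exact e'
    show locus B D' p q = D
    rw [hqs]; exact e.symm
  choose g hg using key
  have hinj : Function.Injective g := fun D D' e => Subtype.ext (by rw [← hg D, ← hg D', e])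
  have hsurj : Function.Surjective g := Finite.injective_iff_surjective.1 hinj
  obtain ⟨D, hD⟩ := hsurj ⟨C, Finset.mem_filter.2 ⟨hC, hp, hq⟩⟩
  have h1 := hg D
  rw [hD] at h1
  have h2 : locus B C p q = D.1 := h1
  rw [h2]
  exact (Finset.mem_filter.1 D.2).1

theorem perp_symm (hL : LociAreCircles B) {C D : Finset P} (hC : C ∈ B) (hD : D ∈ B)
    (hne : (C ∩ D).Nonempty) (hCD : perp B C D) : perp B D C := by
  obtain ⟨p, hp⟩ := hne
  obtain ⟨hpC, hpD⟩ := Finset.mem_inter.1 hp
  obtain ⟨s, hs, hsp, e⟩ := h.exists_locus hC hD hpC hpD hCD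
  have hsD : s ∈ D := by rw [e]; exact right_mem_locus B C p s
  have e' : C = locus B D p s := by rw [e]; exact (h.locus_locus hL hC hpC hs hsp).symm
  rw [perp_iff ⟨p, Finset.mem_inter.2 ⟨hpD, hpC⟩⟩, h.perp2_iff_locus hD hC]
  exact ⟨p, hpD, s, hsD, hsp.symm, e'⟩

theorem axiomTwo_of_loci (hL : LociAreCircles B) : AxiomTwo B := by
  intro C hC p hp q hqp
  obtain ⟨s, ⟨hs, hsp, hq⟩, _⟩ := h.partner hC hp hqp
  have hD := hL C hC p hp s hs hsp
  have hperp := h.perp_locus hC hp hs hsp.symm hD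
  refine ⟨locus B C p s, ⟨hD, left_mem_locus B C p s, hq, ?_⟩, ?_⟩
  · exact h.perp_symm hL hC hD ⟨p, Finset.mem_inter.2 ⟨hp, left_mem_locus B C p s⟩⟩ hperp
  · rintro D' ⟨hD', hpD', hqD', hperp'⟩
    have h1 := h.perp_symm hL hD' hC ⟨p, Finset.mem_inter.2 ⟨hpD', hp⟩⟩ hperp'
    exact h.perp_unique hC hD' hD hp hqp hpD' hqD' (left_mem_locus B C p s) hq h1 hperp

theorem hasPerp_of_axiomTwo (hO : AxiomTwo B) : HasPerp B := by
  intro C hC p hp q _ hqp
  obtain ⟨D, ⟨hD, hpD, hqD, hperp⟩, _⟩ := hO C hC p hp q hqp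
  exact ⟨D, hD, hpD, hqD, hperp⟩

/-- if `D` and `D'` are tangent at `z`, a circle through `z` perpendicular to `D` is perpendicular
to `D'` -/
theorem locus_tangent (hL : LociAreCircles B) {D D' : Finset P} (hD : D ∈ B) (hD' : D' ∈ B) {z t : P}
    (hDD : D ∩ D' = {z}) (ht : t ∈ D) (htz : t ≠ z) :
    ∃ t' ∈ D', t' ≠ z ∧ locus B D z t = locus B D' z t' := by
  have hz : z ∈ D ∩ D' := by rw [hDD]; exact Finset.mem_singleton_self z
  obtain ⟨hzD, hzD'⟩ := Finset.mem_inter.1 hz
  have hX := hL D hD z hzD t ht htz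
  have htD' : t ∉ D' := by
    intro e
    have : t ∈ D ∩ D' := Finset.mem_inter.2 ⟨ht, e⟩
    rw [hDD] at this
    exact htz (Finset.mem_singleton.1 this)
  have hDX : D ∩ locus B D z t = {z, t} := inter_locus hzD ht
  have hne : locus B D z t ∩ D' ≠ {z} := by
    intro e
    have h1 : locus B D z t = D := h.tangent_unique hD' hzD' htD' hX (right_mem_locus B D z t) e hD
      ht hDD
    rw [h1, Finset.inter_self] at hDX
    have h2 := h.card_circle D hD
    rw [hDX, Finset.card_pair htz.symm] at h2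
    have := h.three_le
    omega
  obtain ⟨t', ht', htz'⟩ : ∃ t' ∈ locus B D z t ∩ D', t' ≠ z := by
    by_contra hno
    apply hne
    ext x
    rw [Finset.mem_singleton]
    constructor
    · intro hx
      by_contra hxz
      exact hno ⟨x, hx, hxz⟩
    · rintro rfl
      exact Finset.mem_inter.2 ⟨left_mem_locus B D x t, hzD'⟩
  obtain ⟨ht'X, ht'D'⟩ := Finset.mem_inter.1 ht'
  have ht'D : t' ∉ D := by
    intro e
    have : t' ∈ D ∩ D' := Finset.mem_inter.2 ⟨e, ht'D'⟩
    rw [hDD] at this
    exact htz' (Finset.mem_singleton.1 this)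
  have hzX := left_mem_locus B D z t
  have htX := right_mem_locus B D z t
  have h1 : locus B (locus B D z t) z t = D := h.locus_locus hL hD hzD ht htz
  have hS := hL _ hX z hzX t' ht'X htz'
  have htt' : t ≠ t' := fun e => htD' (e ▸ ht'D')
  have h2 : locus B (locus B D z t) z t' ∩ D = {z} := by
    have h3 : locus B (locus B D z t) z t' ∩ locus B (locus B D z t) z t = {z} :=
      h.locus_inter hX hzX ht'X htX htz' htz htt'.symm
    rwa [h1] at h3
  have h4 : locus B (locus B D z t) z t' = D' :=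
    h.tangent_unique hD hzD ht'D hS (right_mem_locus B _ z t') h2 hD' ht'D'
      (by rw [Finset.inter_comm]; exact hDD)
  refine ⟨t', ht'D', htz', ?_⟩
  have h5 := h.locus_locus hL hX hzX ht'X htz'
  rw [h4] at h5
  exact h5.symm

theorem perp_tangent (hL : LociAreCircles B) {D D' X : Finset P} (hD : D ∈ B) (hD' : D' ∈ B)
    (hX : X ∈ B) {z : P} (hDD : D ∩ D' = {z}) (hzX : z ∈ X) (hXD : perp B X D) : perp B X D' := by
  have hz : z ∈ D ∩ D' := by rw [hDD]; exact Finset.mem_singleton_self z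
  obtain ⟨hzD, hzD'⟩ := Finset.mem_inter.1 hz
  have h1 := h.perp_symm hL hX hD ⟨z, Finset.mem_inter.2 ⟨hzX, hzD⟩⟩ hXD
  obtain ⟨t, ht, htz, e⟩ := h.exists_locus hD hX hzD hzX h1
  obtain ⟨t', ht', htz', e'⟩ := h.locus_tangent hL hD hD' hDD ht htz
  have e2 : X = locus B D' z t' := by rw [e, e']
  have h2 : perp B D' X := by
    rw [perp_iff ⟨z, Finset.mem_inter.2 ⟨hzD', hzX⟩⟩, h.perp2_iff_locus hD' hX]
    exact ⟨z, hzD', t', ht', htz'.symm, e2⟩
  exact h.perp_symm hL hD' hX ⟨z, Finset.mem_inter.2 ⟨hzD', hzX⟩⟩ h2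

/-- two circles through a point `z` off `C` which meet `C` and are perpendicular to `C` meet in exactly
two points -/
theorem two_meet (hL : LociAreCircles B) {C D D' : Finset P} (hC : C ∈ B) (hD : D ∈ B)
    (hD' : D' ∈ B) {z : P} (hz : z ∉ C) (hne : D ≠ D') (hzD : z ∈ D) (hzD' : z ∈ D')
    (hCD : (D ∩ C).Nonempty) (hCD' : (D' ∩ C).Nonempty) (h1 : perp B D C) (h2 : perp B D' C) :
    (D ∩ D').card = 2 := by
  obtain ⟨a, ha⟩ := hCD
  obtain ⟨b, hb⟩ := hCD'
  obtain ⟨haD, haC⟩ := Finset.mem_inter.1 ha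
  obtain ⟨hbD', hbC⟩ := Finset.mem_inter.1 hb
  have hle := h.inter_card_le hD hD' hne
  have hzz : z ∈ D ∩ D' := Finset.mem_inter.2 ⟨hzD, hzD'⟩
  have hpos : 0 < (D ∩ D').card := Finset.card_pos.2 ⟨z, hzz⟩
  by_contra hcard
  have hone : (D ∩ D').card = 1 := by omega
  have hDD : D ∩ D' = {z} := by
    obtain ⟨w, hw⟩ := Finset.card_eq_one.1 hone
    rw [hw] at hzz ⊢
    rw [Finset.mem_singleton.1 hzz]
  have notboth : ∀ x ∈ C, x ∈ D → x ∉ D' := by
    intro x hxC hxD hxD'
    have : x ∈ D ∩ D' := Finset.mem_inter.2 ⟨hxD, hxD'⟩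
    rw [hDD] at this
    exact hz ((Finset.mem_singleton.1 this) ▸ hxC)
  obtain ⟨a', ha'D, ha'a, e1⟩ := h.exists_locus hD hC haD haC h1
  obtain ⟨b', hb'D', hb'b, e2⟩ := h.exists_locus hD' hC hbD' hbC h2
  have ha'C : a' ∈ C := by rw [e1]; exact right_mem_locus B D a a'
  have hza : z ≠ a := fun e => hz (e ▸ haC)
  have hza' : z ≠ a' := fun e => hz (e ▸ ha'C)
  have hb'C : b' ∈ C := by rw [e2]; exact right_mem_locus B D' b b'
  have hzb : z ≠ b := fun e => hz (e ▸ hbC)
  have hzb' : z ≠ b' := fun e => hz (e ▸ hb'C)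
  have hX := hL D hD a haD z hzD hza
  have hX' := hL D hD a' ha'D z hzD hza'
  have hY := hL D' hD' b hbD' z hzD' hzb
  have hXC : locus B D a z ∩ C = {a} := by
    have := h.locus_inter hD haD hzD ha'D hza ha'a hza'
    rwa [← e1] at this
  have hX'C : locus B D a' z ∩ C = {a'} := by
    have := h.locus_inter hD ha'D hzD haD hza' ha'a.symm hza
    rwa [locus_symm B D a' a, ← e1] at this
  have hYC : locus B D' b z ∩ C = {b} := by
    have := h.locus_inter hD' hbD' hzD' hb'D' hzb hb'b hzb'
    rwa [← e2] at this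
  have hXX' : locus B D a' z ∩ locus B D a z = {z} := by
    rw [locus_symm B D a z, locus_symm B D a' z]
    exact h.locus_inter hD hzD ha'D haD hza'.symm hza.symm ha'a
  have hYX : locus B D' b z ∩ locus B D a z = {z} := by
    obtain ⟨t, ht, htz, e⟩ := h.locus_tangent hL hD hD' hDD haD hza.symm
    have hbt : b ≠ t := by
      intro hbt
      have h3 : locus B D a z = locus B D' b z := by
        rw [locus_symm B D a z, e, ← hbt, locus_symm]
      rw [h3, hYC] at hXC
      have hab : b = a := Finset.singleton_injective hXC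
      exact notboth a haC haD (hab ▸ hbD')
    rw [locus_symm B D a z, e, locus_symm B D' b z]
    exact h.locus_inter hD' hzD' hbD' ht hzb.symm htz hbt
  have hQ := (h.qvist hC hX (right_mem_locus B D a z) hz hXC).unique
    ⟨hX', right_mem_locus B D a' z, hXX', by rw [hX'C]; exact Finset.card_singleton a'⟩
    ⟨hY, right_mem_locus B D' b z, hYX, by rw [hYC]; exact Finset.card_singleton b⟩
  rw [hQ, hYC] at hX'C
  have hab : b = a' := Finset.singleton_injective hX'C
  exact notboth a' ha'C ha'D (hab ▸ hbD')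

end InvPlane

end Pool.Agent.Lib.MP_1a7d7d_co
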