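import Pool.Agent.Lib.MP_1a7d7d_co.Axiom

/-!
# Finite inversive planes of odd order: tangency classes and common perpendiculars

Sets of circles closed under tangency, and the number of circles through two points which meet a circle
and are perpendicular to it.
-/

set_option autoImplicit false

namespace Pool.Agent.Lib.MP_1a7d7d_co

open Finset

universe u

variable {P : Type u} [Fintype P] [DecidableEq P]

theorem TanClosed.compl {B R : Finset (Finset P)} (hR : TanClosed B R) : TanClosed B (B \ R) := by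
  refine ⟨Finset.sdiff_subset, ?_⟩
  intro E hE F hF hEF
  obtain ⟨hEB, hER⟩ := Finset.mem_sdiff.1 hE
  refine Finset.mem_sdiff.2 ⟨hF, fun hFR => hER ?_⟩
  exact hR.2 F hFR E hEB (by rw [Finset.inter_comm]; exact hEF)

namespace InvPlane

variable {n : ℕ} {B : Finset (Finset P)} (h : InvPlane n B)

include h

/-- through a point `x` off `C` there are `n + 1` circles tangent to `C` -/
theorem touch_card {C : Finset P} (hC : C ∈ B) {x : P} (hx : x ∉ C) :
    (B.filter (fun F => x ∈ F ∧ (F ∩ C).card = 1)).card = n + 1 := by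
  set T : Finset (Finset P) := B.filter (fun F => x ∈ F ∧ (F ∩ C).card = 1) with hT
  have h1 : ∑ F ∈ T, (C ∩ F).card = C.card * 1 := by
    apply Finset.sum_card_inter
    intro q hq
    apply card_filter_one
    obtain ⟨F, ⟨hFB, hxF, hFC⟩, hu⟩ := h.tangent hC hq hx
    have hqF : q ∈ F := by
      have : q ∈ F ∩ C := by rw [hFC]; exact Finset.mem_singleton_self q
      exact (Finset.mem_inter.1 this).1
    refine ⟨F, ⟨Finset.mem_filter.2 ⟨hFB, hxF, by rw [hFC]; exact Finset.card_singleton q⟩, hqF⟩, ?_⟩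
    rintro G ⟨hG, hqG⟩
    obtain ⟨hGB, hxG, hGC⟩ := Finset.mem_filter.1 hG
    refine hu G ⟨hGB, hxG, ?_⟩
    obtain ⟨a, ha⟩ := Finset.card_eq_one.1 hGC
    have : q ∈ G ∩ C := Finset.mem_inter.2 ⟨hqG, hq⟩
    rw [ha] at this ⊢
    rw [Finset.mem_singleton.1 this]
  have h2 : ∀ F ∈ T, (C ∩ F).card = 1 := by
    intro F hF
    obtain ⟨_, _, h3⟩ := Finset.mem_filter.1 hF
    rw [Finset.inter_comm]; exact h3
  rw [Finset.sum_congr rfl h2, Finset.sum_const, smul_eq_mul, mul_one, mul_one,
    h.card_circle C hC] at h1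
  exact h1

/-- tangency at `p` is transitive -/
theorem tan_trans {D E F : Finset P} (hD : D ∈ B) (hE : E ∈ B) (hF : F ∈ B) {p : P}
    (hED : E ∩ D = {p}) (hFD : F ∩ D = {p}) (hne : E ≠ F) : E ∩ F = {p} := by
  have hp : p ∈ E ∩ D := by rw [hED]; exact Finset.mem_singleton_self p
  have hp' : p ∈ F ∩ D := by rw [hFD]; exact Finset.mem_singleton_self p
  have hpE := (Finset.mem_inter.1 hp).1
  have hpD := (Finset.mem_inter.1 hp).2
  have hpF := (Finset.mem_inter.1 hp').1
  ext x
  simp only [Finset.mem_inter, Finset.mem_singleton]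
  constructor
  · rintro ⟨hxE, hxF⟩
    by_contra hxp
    have hxD : x ∉ D := by
      intro hxD
      have : x ∈ E ∩ D := Finset.mem_inter.2 ⟨hxE, hxD⟩
      rw [hED] at this
      exact hxp (Finset.mem_singleton.1 this)
    exact hne (h.tangent_unique hD hpD hxD hE hxE hED hF hxF hFD)
  · rintro rfl; exact ⟨hpE, hpF⟩

/-- in a set of circles pairwise tangent at `p` at most two are tangent to a circle `C` not through
`p` -/
theorem pencil_touch_le {C : Finset P} (hC : C ∈ B) {p : P} (hp : p ∉ C) {S : Finset (Finset P)}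
    (hS : ∀ E ∈ S, E ∈ B ∧ p ∈ E ∧ (E ∩ C).card = 1)
    (hS' : ∀ E ∈ S, ∀ F ∈ S, E ≠ F → E ∩ F = {p}) : S.card ≤ 2 := by
  by_contra hlt
  obtain ⟨E, hE, F, hF, G, hG, hEF, hEG, hFG⟩ := Finset.two_lt_card.1 (not_le.1 hlt)
  obtain ⟨hEB, hpE, hEC⟩ := hS E hE
  obtain ⟨hFB, hpF, hFC⟩ := hS F hF
  obtain ⟨hGB, hpG, hGC⟩ := hS G hG
  obtain ⟨a, ha⟩ := Finset.card_eq_one.1 hEC
  exact hFG ((h.qvist hC hEB hpE hp ha).unique ⟨hFB, hpF, hS' F hF E hE hEF.symm, hFC⟩
    ⟨hGB, hpG, hS' G hG E hE hEG.symm, hGC⟩)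

theorem exists_off {p : P} {R : Finset (Finset P)} (hR : TanClosed B R) (hne : R.Nonempty) :
    ∃ C ∈ R, p ∉ C := by
  obtain ⟨C, hC⟩ := hne
  by_cases hp : p ∈ C
  · have hCB := hR.1 hC
    have hn := h.three_le
    obtain ⟨r, hr, hrp⟩ : ∃ r ∈ C, r ≠ p :=
      Finset.exists_mem_ne (by rw [h.card_circle C hCB]; omega) p
    obtain ⟨x, hx⟩ : ∃ x, x ∉ C := by
      by_contra hall
      have h1 : C = Finset.univ := by
        ext x
        simp only [Finset.mem_univ, iff_true]
        by_contra hx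
        exact hall ⟨x, hx⟩
      have h2 := h.card_circle C hCB
      rw [h1, Finset.card_univ, h.card_points] at h2
      nlinarith
    obtain ⟨E, ⟨hE, hxE, hEC⟩, _⟩ := h.tangent hCB hr hx
    refine ⟨E, hR.2 C hC E hE (by rw [Finset.inter_comm, hEC]; exact Finset.card_singleton r), ?_⟩
    intro hpE
    have : p ∈ E ∩ C := Finset.mem_inter.2 ⟨hpE, hp⟩
    rw [hEC] at this
    exact hrp (Finset.mem_singleton.1 this).symm
  · exact ⟨C, hC, hp⟩

/-- a nonempty set of circles closed under tangency contains at least half of the circles through any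
two points -/
theorem class_ge {R : Finset (Finset P)} (hR : TanClosed B R) (hne : R.Nonempty) (p y : P) : n + 1 ≤ 2 * ((thr B p y).filter (fun D => D ∈ R)).card := by
  classical
  obtain ⟨C, hCR, hpC⟩ := h.exists_off (p := p) hR hne
  have hC := hR.1 hCR
  rw [← h.touch_card hC hpC]
  have key : ∀ E : Finset P, E ∈ B → p ∈ E →
      ∃ D, D ∈ thr B p y ∧ (D = E ∨ D ∩ E = {p}) := by
    intro E hE hpE
    by_cases hyE : y ∈ E
    · exact ⟨E, Finset.mem_filter.2 ⟨hE, hpE, hyE⟩, Or.inl rfl⟩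
    · obtain ⟨D, ⟨hD, hyD, hDE⟩, _⟩ := h.tangent hE hpE hyE
      have hpD : p ∈ D := by
        have : p ∈ D ∩ E := by rw [hDE]; exact Finset.mem_singleton_self p
        exact (Finset.mem_inter.1 this).1
      exact ⟨D, Finset.mem_filter.2 ⟨hD, hpD, hyD⟩, Or.inr hDE⟩
  let f : Finset P → Finset P := fun E => if hE : E ∈ B ∧ p ∈ E then
    (key E hE.1 hE.2).choose else E
  have hf : ∀ E, E ∈ B → p ∈ E → f E ∈ thr B p y ∧ (f E = E ∨ f E ∩ E = {p}) := by
    intro E hE hpE
    have : f E = (key E hE hpE).choose := dif_pos ⟨hE, hpE⟩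
    rw [this]
    exact (key E hE hpE).choose_spec
  apply Finset.card_le_mul_card_image_of_maps_to (f := f)
  · intro E hE
    obtain ⟨hEB, hpE, hEC⟩ := Finset.mem_filter.1 hE
    have hER : E ∈ R := hR.2 C hCR E hEB (by rw [Finset.inter_comm]; exact hEC)
    obtain ⟨h1, h2⟩ := hf E hEB hpE
    refine Finset.mem_filter.2 ⟨h1, ?_⟩
    rcases h2 with e | e
    · rw [e]; exact hER
    · exact hR.2 E hER _ (Finset.mem_filter.1 h1).1
        (by rw [Finset.inter_comm, e]; exact Finset.card_singleton p)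
  · intro D hD
    apply h.pencil_touch_le hC hpC
    · intro E hE
      obtain ⟨hE1, _⟩ := Finset.mem_filter.1 hE
      obtain ⟨hEB, hpE, hEC⟩ := Finset.mem_filter.1 hE1
      exact ⟨hEB, hpE, hEC⟩
    · intro E hE F hF hEF
      obtain ⟨hE1, hE2⟩ := Finset.mem_filter.1 hE
      obtain ⟨hEB, hpE, hEC⟩ := Finset.mem_filter.1 hE1
      obtain ⟨hF1, hF2⟩ := Finset.mem_filter.1 hF
      obtain ⟨hFB, hpF, hFC⟩ := Finset.mem_filter.1 hF1
      have hDB : D ∈ B := (Finset.mem_filter.1 (Finset.mem_filter.1 hD).1).1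
      have e1 := (hf E hEB hpE).2
      have e2 := (hf F hFB hpF).2
      rw [hE2] at e1
      rw [hF2] at e2
      rcases e1 with e1 | e1
      · rcases e2 with e2 | e2
        · exact absurd (e1.symm.trans e2) hEF
        · rw [← e1]; exact e2
      · rcases e2 with e2 | e2
        · rw [← e2, Finset.inter_comm]; exact e1
        · rw [Finset.inter_comm] at e1 e2
          exact h.tan_trans hDB hEB hFB e1 e2 hEF

theorem class_card {R : Finset (Finset P)} (hR : TanClosed B R) (hne : R.Nonempty) (hRB : R ≠ B)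
    {p y : P} (hpy : p ≠ y) : 2 * ((thr B p y).filter (fun D => D ∈ R)).card = n + 1 := by
  have h1 := h.class_ge hR hne p y
  have hne' : (B \ R).Nonempty := by
    rw [Finset.sdiff_nonempty]
    intro hsub
    exact hRB (Finset.Subset.antisymm hR.1 hsub)
  have h2 := h.class_ge hR.compl hne' p y
  have h3 : (thr B p y).filter (fun D => D ∈ B \ R) = (thr B p y).filter (fun D => ¬ D ∈ R) := by
    apply Finset.filter_congr
    intro D hD
    rw [Finset.mem_sdiff]
    have := (Finset.mem_filter.1 hD).1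
    tauto
  rw [h3] at h2
  have h4 := Finset.card_filter_add_card_filter_not (s := thr B p y) (fun D => D ∈ R)
  rw [h.thr_card hpy] at h4
  omega

/-- two disjoint nonempty sets of circles closed under tangency contain all circles -/
theorem union_eq {R R' : Finset (Finset P)} (hR : TanClosed B R) (hne : R.Nonempty)
    (hR' : TanClosed B R') (hne' : R'.Nonempty) (hdis : Disjoint R R') : R ∪ R' = B := by
  apply Finset.Subset.antisymm (Finset.union_subset hR.1 hR'.1)
  intro C hC
  by_contra hCn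
  obtain ⟨p, hp, y, hy, hpy⟩ := Finset.one_lt_card.1
    (show 1 < C.card by rw [h.card_circle C hC]; have := h.three_le; omega)
  have h1 := h.class_ge hR hne p y
  have h2 := h.class_ge hR' hne' p y
  have h3 : Disjoint ((thr B p y).filter (fun D => D ∈ R)) ((thr B p y).filter (fun D => D ∈ R')) := by
    rw [Finset.disjoint_left]
    intro D hD hD'
    exact Finset.disjoint_left.1 hdis (Finset.mem_filter.1 hD).2 (Finset.mem_filter.1 hD').2
  have h4 : ((thr B p y).filter (fun D => D ∈ R)) ∪ ((thr B p y).filter (fun D => D ∈ R'))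
      ⊆ (thr B p y).erase C := by
    intro D hD
    rw [Finset.mem_erase]
    rcases Finset.mem_union.1 hD with e | e
    · obtain ⟨e1, e2⟩ := Finset.mem_filter.1 e
      exact ⟨fun e3 => hCn (Finset.mem_union_left _ (e3 ▸ e2)), e1⟩
    · obtain ⟨e1, e2⟩ := Finset.mem_filter.1 e
      exact ⟨fun e3 => hCn (Finset.mem_union_right _ (e3 ▸ e2)), e1⟩
  have h5 := Finset.card_le_card h4
  have h6 : C ∈ thr B p y := Finset.mem_filter.2 ⟨hC, hp, hy⟩
  rw [Finset.card_union_of_disjoint h3, Finset.card_erase_of_mem h6, h.thr_card hpy] at h5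
  omega

theorem perp_card {D Y : Finset P} (hne : (D ∩ Y).Nonempty) (hDY : perp B D Y) :
    (D ∩ Y).card = 2 := by
  rw [perp_iff hne] at hDY
  obtain ⟨_, p, q, hpq, hDC, _⟩ := hDY
  rw [hDC, Finset.card_pair hpq]

/-- under (O2) the circles through a point off `C` which meet `C` and are perpendicular to it are
`(n + 1) / 2` in number -/
theorem perp_count (hO : AxiomTwo B) {C : Finset P} (hC : C ∈ B) {z : P} (hz : z ∉ C) :
    2 * Set.ncard {D : Finset P | D ∈ B ∧ z ∈ D ∧ (D ∩ C).Nonempty ∧ perp B D C} = n + 1 := by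
  classical
  set S := B.filter (fun D => z ∈ D ∧ (D ∩ C).Nonempty ∧ perp B D C) with hS
  have h0 : {D : Finset P | D ∈ B ∧ z ∈ D ∧ (D ∩ C).Nonempty ∧ perp B D C} = (S : Set (Finset P)) := by
    ext D
    simp only [hS, Set.mem_ofPred_eq, Finset.coe_filter]
  rw [h0, Set.ncard_coe_finset]
  have h1 : ∑ D ∈ S, (C ∩ D).card = C.card * 1 := by
    apply Finset.sum_card_inter
    intro c hc
    apply card_filter_one
    have hzc : z ≠ c := fun e => hz (e ▸ hc)
    obtain ⟨D, ⟨hD, hcD, hzD, hperp⟩, hu⟩ := hO C hC c hc z hzc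
    refine ⟨D, ⟨Finset.mem_filter.2 ⟨hD, hzD, ⟨c, Finset.mem_inter.2 ⟨hcD, hc⟩⟩, hperp⟩, hcD⟩, ?_⟩
    rintro D' ⟨hD', hcD'⟩
    obtain ⟨hD'B, hzD', _, hp'⟩ := Finset.mem_filter.1 hD'
    exact hu D' ⟨hD'B, hcD', hzD', hp'⟩
  have h2 : ∀ D ∈ S, (C ∩ D).card = 2 := by
    intro D hD
    obtain ⟨hDB, hzD, hne, hp⟩ := Finset.mem_filter.1 hD
    rw [perp_iff hne] at hp
    obtain ⟨_, p, q, hpq, hDC, _⟩ := hp
    rw [Finset.inter_comm, hDC, Finset.card_pair hpq]
  rw [Finset.sum_congr rfl h2, Finset.sum_const, smul_eq_mul, mul_one, h.card_circle C hC] at h1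
  omega

end InvPlane

end Pool.Agent.Lib.MP_1a7d7d_co
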