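import Mathlib

/-!
# Finite inversive planes of odd order: definitions

The planes, the tangency loci, the relation `R` of the problem (`perp`), the axiom (O2) for it and
sets of circles closed under tangency.
-/

set_option autoImplicit false

namespace Pool.Agent.Lib.MP_1a7d7d_co

universe u

/-- `B` is the set of circles of a finite inversive plane of odd order `n` on the point set `P`:
there are `n ^ 2 + 1` points, every circle has `n + 1` points, and any three distinct points are on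
exactly one circle. -/
structure InvPlane {P : Type u} [Fintype P] [DecidableEq P] (n : ℕ) (B : Finset (Finset P)) : Prop where
  two_le : 2 ≤ n
  odd : Odd n
  card_points : Fintype.card P = n ^ 2 + 1
  card_circle : ∀ C ∈ B, C.card = n + 1
  unique : ∀ x y z : P, x ≠ y → x ≠ z → y ≠ z →
    ∃! C : Finset P, C ∈ B ∧ x ∈ C ∧ y ∈ C ∧ z ∈ C

/-- rule (i): `C` and `D` meet in exactly two points `p`, `q` and, for every other point `x` of `D`, the
circles through `x` tangent to `C` at `p` and at `q` are tangent to each other -/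
def perp2 {P : Type u} [DecidableEq P] (B : Finset (Finset P)) (C D : Finset P) : Prop :=
  C ≠ D ∧ ∃ p q : P, p ≠ q ∧ C ∩ D = {p, q} ∧
    ∀ x ∈ D, x ≠ p → x ≠ q → ∀ E ∈ B, ∀ F ∈ B,
      x ∈ E → E ∩ C = {p} → x ∈ F → F ∩ C = {q} → E ∩ F = {x}

/-- the relation of the problem, rules (i) and (ii) -/
def perp {P : Type u} [DecidableEq P] (B : Finset (Finset P)) (C D : Finset P) : Prop :=
  C ≠ D ∧ (perp2 B C D ∨
    (C ∩ D = ∅ ∧ ∃ p ∈ D, ∃ q ∈ D, p ≠ q ∧ ∃ A ∈ B, ∃ A' ∈ B, A ≠ A' ∧
      p ∈ A ∧ q ∈ A ∧ p ∈ A' ∧ q ∈ A' ∧ (A ∩ C).card = 2 ∧ (A' ∩ C).card = 2 ∧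
      perp2 B A C ∧ perp2 B C A'))

section loci

variable {P : Type u} [Fintype P] [DecidableEq P]

/-- the points `x` off the circle `C` for which the circles through `x` tangent to `C` at `p` and at `q`
are tangent to each other -/
def loc (B : Finset (Finset P)) (C : Finset P) (p q : P) : Finset P :=
  Finset.univ.filter fun x => x ∉ C ∧ ∀ E ∈ B, ∀ F ∈ B,
    x ∈ E → E ∩ C = {p} → x ∈ F → F ∩ C = {q} → E ∩ F = {x}

/-- the tangency locus of the circle `C` and its points `p`, `q`: the points `p`, `q` and all points `x`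
off `C` for which the circles through `x` tangent to `C` at `p` and at `q` are tangent to each other -/
def locus (B : Finset (Finset P)) (C : Finset P) (p q : P) : Finset P :=
  {p, q} ∪ loc B C p q

end loci

/-- the axiom (O2) for the relation `perp B` -/
def AxiomTwo {P : Type u} [DecidableEq P] (B : Finset (Finset P)) : Prop :=
  ∀ C ∈ B, ∀ p ∈ C, ∀ q : P, q ≠ p → ∃! D : Finset P, D ∈ B ∧ p ∈ D ∧ q ∈ D ∧ perp B D C

/-- for any two points `p`, `q` of a circle `C` some circle `D` through `p` and `q` has `perp B D C` -/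
def HasPerp {P : Type u} [DecidableEq P] (B : Finset (Finset P)) : Prop :=
  ∀ C ∈ B, ∀ p ∈ C, ∀ q ∈ C, q ≠ p → ∃ D ∈ B, p ∈ D ∧ q ∈ D ∧ perp B D C

/-- all tangency loci are circles -/
def LociAreCircles {P : Type u} [Fintype P] [DecidableEq P] (B : Finset (Finset P)) : Prop :=
  ∀ C ∈ B, ∀ p ∈ C, ∀ q ∈ C, q ≠ p → locus B C p q ∈ B

/-- `R` is a set of circles such that every circle tangent to a member of `R` is in `R` -/
def TanClosed {P : Type u} [DecidableEq P] (B R : Finset (Finset P)) : Prop :=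
  R ⊆ B ∧ ∀ E ∈ R, ∀ F ∈ B, (E ∩ F).card = 1 → F ∈ R

/-- the three axioms (O1), (O2), (O3) for the relation `perp B` -/
def IsOrthogonality {P : Type u} [DecidableEq P] (B : Finset (Finset P)) : Prop :=
  (∀ C ∈ B, ∀ D ∈ B, perp B C D → perp B D C) ∧ AxiomTwo B ∧
  (∀ p q : P, p ≠ q → ∀ A ∈ B, ∀ A' ∈ B, ∀ C ∈ B, A ≠ A' → p ∈ A → q ∈ A → p ∈ A' → q ∈ A' →
    perp B A C → perp B C A' → ∀ X ∈ B, p ∈ X → q ∈ X → perp B C X)

/-- (O3) for circles `A`, `A'` and `C` such that `A` is disjoint from `C` and `A'` meets `C` -/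
def BundleMixed {P : Type u} [DecidableEq P] (B : Finset (Finset P)) : Prop :=
  ∀ p q : P, p ≠ q → ∀ A ∈ B, ∀ A' ∈ B, ∀ C ∈ B, A ∩ C = ∅ → (A' ∩ C).Nonempty →
    p ∈ A → q ∈ A → p ∈ A' → q ∈ A' →
    perp B A C → perp B C A' → ∀ X ∈ B, p ∈ X → q ∈ X → perp B C X

end Pool.Agent.Lib.MP_1a7d7d_co
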