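import Pool.Agent.Lib.MP_1a7d7d_co.Classes

/-!
# Finite inversive planes of odd order: a gap for common perpendiculars

If (O2) holds and the circles fall into two tangency classes, then the number `N` of circles through two
points off a circle `Y` which meet `Y` and are perpendicular to it satisfies `2 N = n + 1` or
`4 N ≤ n - 1`.
-/

set_option autoImplicit false

namespace Pool.Agent.Lib.MP_1a7d7d_co

open Finset

universe u

variable {P : Type u} [Fintype P] [DecidableEq P]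

namespace InvPlane

variable {n : ℕ} {B : Finset (Finset P)} (h : InvPlane n B)

include h

/-- the main inequality: if some point `c` of `Y` is on no circle through `p`, `y` perpendicular to
`Y` -/
theorem gap_aux (hL : LociAreCircles B) {R : Finset (Finset P)} (hR : TanClosed B R)
    (hne : R.Nonempty) (hRB : R ≠ B) {Y : Finset P} (hY : Y ∈ B) {p y : P} (hpy : p ≠ y)
    (hpY : p ∉ Y) (hyY : y ∉ Y) {S : Finset (Finset P)}
    (hS : ∀ D, D ∈ S ↔ D ∈ thr B p y ∧ (D ∩ Y).Nonempty ∧ perp B D Y) {c : P} (hc : c ∈ Y)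
    (hcS : ∀ D ∈ S, c ∉ D) (hcR : ∀ c' ∈ Y, c' ≠ c → locus B Y c c' ∈ R) :
    4 * S.card + 1 ≤ n := by
  classical
  -- the circles of the bundle in the class `R`
  set T : Finset (Finset P) := (thr B p y).filter (fun D => D ∈ R ∧ c ∉ D) with hT
  have hTcard : 2 * T.card ≤ n + 1 := by
    rw [← h.class_card hR hne hRB hpy]
    apply Nat.mul_le_mul_left
    apply Finset.card_le_card
    intro D hD
    obtain ⟨h1, h2, _⟩ := Finset.mem_filter.1 hD
    exact Finset.mem_filter.2 ⟨h1, h2⟩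
  -- the feet
  set F : Finset P := Y.filter (fun c' => ∃ D ∈ S, c' ∈ D) with hF
  have hFcard : F.card = 2 * S.card := by
    have h1 : ∑ D ∈ S, (F ∩ D).card = F.card * 1 := by
      apply Finset.sum_card_inter
      intro a ha
      apply card_filter_one
      obtain ⟨haY, D, hD, haD⟩ := Finset.mem_filter.1 ha
      refine ⟨D, ⟨hD, haD⟩, ?_⟩
      rintro D' ⟨hD', haD'⟩
      obtain ⟨hDB, hpD, hyD⟩ := Finset.mem_filter.1 ((hS D).1 hD).1
      obtain ⟨hDB', hpD', hyD'⟩ := Finset.mem_filter.1 ((hS D').1 hD').1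
      exact h.eq_of_three hDB' hDB hpy (fun e => hpY (e ▸ haY)) (fun e => hyY (e ▸ haY)) hpD' hyD'
        haD' hpD hyD haD
    have h2 : ∀ D ∈ S, (F ∩ D).card = 2 := by
      intro D hD
      obtain ⟨hD1, hD2, hD3⟩ := (hS D).1 hD
      have h3 : F ∩ D = D ∩ Y := by
        ext x
        simp only [hF, Finset.mem_inter, Finset.mem_filter]
        constructor
        · rintro ⟨⟨hxY, _⟩, hxD⟩; exact ⟨hxD, hxY⟩
        · rintro ⟨hxD, hxY⟩; exact ⟨⟨hxY, D, hD, hxD⟩, hxD⟩
      rw [h3]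
      exact h.perp_card hD2 hD3
    rw [Finset.sum_congr rfl h2, Finset.sum_const, smul_eq_mul, mul_one] at h1
    omega
  -- a circle through `c` tangent to some `locus B Y c c'` at `c` is perpendicular to `Y`
  have hcD : ∀ c' ∈ Y, c' ≠ c → ∀ D ∈ thr B p y, (locus B Y c c' ∩ D).card = 1 → c ∉ D := by
    intro c' hc' hne' D hD hcard hcD
    have hK := hL Y hY c hc c' hc' hne'
    obtain ⟨hDB, hpD, hyD⟩ := Finset.mem_filter.1 hD
    have hKD : locus B Y c c' ∩ D = {c} := by
      obtain ⟨a, ha⟩ := Finset.card_eq_one.1 hcard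
      have : c ∈ locus B Y c c' ∩ D := Finset.mem_inter.2 ⟨left_mem_locus B Y c c', hcD⟩
      rw [ha] at this ⊢
      rw [Finset.mem_singleton.1 this]
    have h1 := h.perp_locus hY hc hc' hne'.symm hK
    have h2 := h.perp_tangent hL hK hDB hY hKD hc h1
    have hne2 : (Y ∩ D).Nonempty := ⟨c, Finset.mem_inter.2 ⟨hc, hcD⟩⟩
    have h3 := h.perp_symm hL hY hDB hne2 h2
    exact hcS D ((hS D).2 ⟨hD, ⟨c, Finset.mem_inter.2 ⟨hcD, hc⟩⟩, h3⟩) hcD
  -- number of circles of the bundle touched by `locus B Y c c'`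
  set t : P → ℕ := fun c' => (T.filter (fun D => (locus B Y c c' ∩ D).card = 1)).card with ht
  have hle : ∑ c' ∈ Y.erase c, t c' ≤ 2 * T.card := by
    have h1 : ∑ c' ∈ Y.erase c, t c'
        = ∑ D ∈ T, ((Y.erase c).filter (fun c' => (locus B Y c c' ∩ D).card = 1)).card := by
      simp only [ht, Finset.card_filter]
      exact Finset.sum_comm
    rw [h1]
    have h2 : ∀ D ∈ T, ((Y.erase c).filter (fun c' => (locus B Y c c' ∩ D).card = 1)).card ≤ 2 := by
      intro D hD
      obtain ⟨hD1, hDR, hcD'⟩ := Finset.mem_filter.1 hD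
      have hDB := (Finset.mem_filter.1 hD1).1
      have hinj : Set.InjOn (fun c' => locus B Y c c')
          ((Y.erase c).filter (fun c' => (locus B Y c c' ∩ D).card = 1) : Finset P) := by
        intro a ha b hb hab
        have ha' := Finset.mem_coe.1 ha
        have hb' := Finset.mem_coe.1 hb
        obtain ⟨hac, haY⟩ := Finset.mem_erase.1 (Finset.mem_filter.1 ha').1
        obtain ⟨hbc, hbY⟩ := Finset.mem_erase.1 (Finset.mem_filter.1 hb').1
        have hab' : locus B Y c a = locus B Y c b := hab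
        have : a ∈ locus B Y c b := by rw [← hab']; exact right_mem_locus B Y c a
        rcases mem_of_mem_locus haY this with e | e
        · exact absurd e hac
        · exact e
      rw [← Finset.card_image_of_injOn hinj]
      apply h.pencil_touch_le hDB hcD'
      · intro E hE
        obtain ⟨a, ha, rfl⟩ := Finset.mem_image.1 hE
        obtain ⟨ha1, ha2⟩ := Finset.mem_filter.1 ha
        obtain ⟨hac, haY⟩ := Finset.mem_erase.1 ha1
        exact ⟨hL Y hY c hc a haY hac, left_mem_locus B Y c a, ha2⟩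
      · intro E hE G hG hEG
        obtain ⟨a, ha, rfl⟩ := Finset.mem_image.1 hE
        obtain ⟨b, hb, rfl⟩ := Finset.mem_image.1 hG
        obtain ⟨hac, haY⟩ := Finset.mem_erase.1 (Finset.mem_filter.1 ha).1
        obtain ⟨hbc, hbY⟩ := Finset.mem_erase.1 (Finset.mem_filter.1 hb).1
        have hab : a ≠ b := fun e => hEG (by rw [e])
        exact h.locus_inter hY hc haY hbY hac hbc hab
    calc ∑ D ∈ T, ((Y.erase c).filter (fun c' => (locus B Y c c' ∩ D).card = 1)).card
        ≤ ∑ D ∈ T, 2 := Finset.sum_le_sum h2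
      _ = 2 * T.card := by rw [Finset.sum_const, smul_eq_mul, mul_comm]
  -- feet give at least two
  have hfeet : ∀ a ∈ F, a ≠ c ∧ p ∉ locus B Y c a ∧ y ∉ locus B Y c a ∧ 2 ≤ t a := by
    intro a ha
    obtain ⟨haY, D, hD, haD⟩ := Finset.mem_filter.1 ha
    obtain ⟨hD1, hD2, hD3⟩ := (hS D).1 hD
    obtain ⟨hDB, hpD, hyD⟩ := Finset.mem_filter.1 hD1
    have hac : a ≠ c := fun e => hcS D hD (e ▸ haD)
    have hK := hL Y hY c hc a haY hac
    have hYD := h.perp_symm hL hDB hY hD2 hD3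
    obtain ⟨b, hbY, hba, e⟩ := h.exists_locus hY hDB haY haD hYD
    have hcb : c ≠ b := by
      intro hcb
      exact hcS D hD (by rw [e, hcb]; exact right_mem_locus B Y a b)
    have hKD : locus B Y c a ∩ D = {a} := by
      rw [locus_symm B Y c a, e]
      exact h.locus_inter hY haY hc hbY hac.symm hba hcb
    have hpK : p ∉ locus B Y c a := by
      intro hpK
      have : p ∈ locus B Y c a ∩ D := Finset.mem_inter.2 ⟨hpK, hpD⟩
      rw [hKD] at this
      exact hpY ((Finset.mem_singleton.1 this) ▸ haY)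
    have hyK : y ∉ locus B Y c a := by
      intro hyK
      have : y ∈ locus B Y c a ∩ D := Finset.mem_inter.2 ⟨hyK, hyD⟩
      rw [hKD] at this
      exact hyY ((Finset.mem_singleton.1 this) ▸ haY)
    refine ⟨hac, hpK, hyK, ?_⟩
    have h1 := h.parity_thr hK hpy hpK hyK
    have h2 : (thr B p y).filter (fun D => (locus B Y c a ∩ D).card = 1)
        ⊆ T.filter (fun D => (locus B Y c a ∩ D).card = 1) := by
      intro G hG
      obtain ⟨hG1, hG2⟩ := Finset.mem_filter.1 hG
      refine Finset.mem_filter.2 ⟨Finset.mem_filter.2 ⟨hG1, ?_, ?_⟩, hG2⟩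
      · exact hR.2 _ (hcR a haY hac) G (Finset.mem_filter.1 hG1).1 hG2
      · exact hcD a haY hac G hG1 hG2
    have h3 : 0 < ((thr B p y).filter (fun D => (locus B Y c a ∩ D).card = 1)).card :=
      Finset.card_pos.2 ⟨D, Finset.mem_filter.2 ⟨hD1, by
        rw [hKD]; exact Finset.card_singleton a⟩⟩
    have h4 := Finset.card_le_card h2
    show 2 ≤ (T.filter (fun D => (locus B Y c a ∩ D).card = 1)).card
    rcases h1 with ⟨k, hk⟩
    omega
  -- the two circles through `p` and through `y`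
  have hone : ∀ u v : P, u ∉ Y → v ∉ Y → (∀ D, D ∈ thr B p y ↔ D ∈ B ∧ u ∈ D ∧ v ∈ D) →
      ∃ a ∈ Y, a ≠ c ∧ u ∈ locus B Y c a ∧ v ∉ locus B Y c a ∧ 1 ≤ t a := by
    intro u v hu hv huv
    have huc : u ≠ c := fun e => hu (e ▸ hc)
    obtain ⟨a, ⟨haY, hac, hua⟩, _⟩ := h.partner hY hc huc
    have hK := hL Y hY c hc a haY hac
    have hvK : v ∉ locus B Y c a := by
      intro hvK
      have hKt : locus B Y c a ∈ thr B p y := (huv _).2 ⟨hK, hua, hvK⟩
      have h1 := h.perp_locus hY hc haY hac.symm hK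
      have h2 := h.perp_symm hL hY hK ⟨c, Finset.mem_inter.2 ⟨hc, left_mem_locus B Y c a⟩⟩ h1
      exact hcS _ ((hS _).2 ⟨hKt, ⟨c, Finset.mem_inter.2 ⟨left_mem_locus B Y c a, hc⟩⟩, h2⟩)
        (left_mem_locus B Y c a)
    obtain ⟨D, ⟨hD, hvD, hDK⟩, _⟩ := h.tangent hK hua hvK
    have huD : u ∈ D := by
      have : u ∈ D ∩ locus B Y c a := by rw [hDK]; exact Finset.mem_singleton_self u
      exact (Finset.mem_inter.1 this).1
    have hDt : D ∈ thr B p y := (huv _).2 ⟨hD, huD, hvD⟩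
    have hcard : (locus B Y c a ∩ D).card = 1 := by
      rw [Finset.inter_comm, hDK]; exact Finset.card_singleton u
    refine ⟨a, haY, hac, hua, hvK, ?_⟩
    apply Nat.succ_le_of_lt
    apply Finset.card_pos.2
    exact ⟨D, Finset.mem_filter.2 ⟨Finset.mem_filter.2 ⟨hDt, hR.2 _ (hcR a haY hac) D hD hcard,
      hcD a haY hac D hDt hcard⟩, hcard⟩⟩
  obtain ⟨a, haY, hac, hpa, hya, hta⟩ := hone p y hpY hyY (fun D => by
    simp only [thr, Finset.mem_filter])
  obtain ⟨b, hbY, hbc, hyb, hpb, htb⟩ := hone y p hyY hpY (fun D => by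
    simp only [thr, Finset.mem_filter]; tauto)
  have hab : a ≠ b := fun e => hpb (e ▸ hpa)
  have haF : a ∉ F := fun e => (hfeet a e).2.1 hpa
  have hbF : b ∉ F := fun e => (hfeet b e).2.2.1 hyb
  have hsub : insert a (insert b F) ⊆ Y.erase c := by
    intro x hx
    rw [Finset.mem_erase]
    rcases Finset.mem_insert.1 hx with e | e
    · exact ⟨e ▸ hac, e ▸ haY⟩
    rcases Finset.mem_insert.1 e with e | e
    · exact ⟨e ▸ hbc, e ▸ hbY⟩
    · exact ⟨(hfeet x e).1, (Finset.mem_filter.1 e).1⟩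
  have hge : 2 * F.card + 2 ≤ ∑ c' ∈ Y.erase c, t c' := by
    have h1 : ∑ c' ∈ insert a (insert b F), t c' ≤ ∑ c' ∈ Y.erase c, t c' :=
      Finset.sum_le_sum_of_subset hsub
    have haF' : a ∉ insert b F := by
      intro e
      rcases Finset.mem_insert.1 e with e | e
      · exact hab e
      · exact haF e
    rw [Finset.sum_insert haF', Finset.sum_insert hbF] at h1
    have h2 : ∑ c' ∈ F, 2 ≤ ∑ c' ∈ F, t c' := Finset.sum_le_sum fun x hx => (hfeet x hx).2.2.2
    rw [Finset.sum_const, smul_eq_mul] at h2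
    omega
  omega

/-- the gap: `2 N = n + 1` or `4 N + 1 ≤ n` -/
theorem gap (hL : LociAreCircles B) {R : Finset (Finset P)} (hR : TanClosed B R)
    (hne : R.Nonempty) (hRB : R ≠ B) {Y : Finset P} (hY : Y ∈ B) {p y : P} (hpy : p ≠ y)
    (hpY : p ∉ Y) (hyY : y ∉ Y) :
    2 * Set.ncard {D : Finset P | D ∈ B ∧ p ∈ D ∧ y ∈ D ∧ (D ∩ Y).Nonempty ∧ perp B D Y} = n + 1 ∨
    4 * Set.ncard {D : Finset P | D ∈ B ∧ p ∈ D ∧ y ∈ D ∧ (D ∩ Y).Nonempty ∧ perp B D Y} + 1 ≤ n := by
  classical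
  set S := B.filter (fun D => p ∈ D ∧ y ∈ D ∧ (D ∩ Y).Nonempty ∧ perp B D Y) with hSdef
  have h0 : {D : Finset P | D ∈ B ∧ p ∈ D ∧ y ∈ D ∧ (D ∩ Y).Nonempty ∧ perp B D Y}
      = (S : Set (Finset P)) := by
    ext D
    simp only [hSdef, Set.mem_ofPred_eq, Finset.coe_filter]
  rw [h0, Set.ncard_coe_finset]
  have hS : ∀ D, D ∈ S ↔ D ∈ thr B p y ∧ (D ∩ Y).Nonempty ∧ perp B D Y := by
    intro D
    simp only [hSdef, thr, Finset.mem_filter]
    tauto
  by_cases hall : ∀ c ∈ Y, ∃ D ∈ S, c ∈ D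
  · left
    have h1 : ∑ D ∈ S, (Y ∩ D).card = Y.card * 1 := by
      apply Finset.sum_card_inter
      intro c hc
      apply card_filter_one
      obtain ⟨D, hD, hcD⟩ := hall c hc
      refine ⟨D, ⟨hD, hcD⟩, ?_⟩
      rintro D' ⟨hD', hcD'⟩
      obtain ⟨hDB, hpD, hyD⟩ := Finset.mem_filter.1 ((hS D).1 hD).1
      obtain ⟨hDB', hpD', hyD'⟩ := Finset.mem_filter.1 ((hS D').1 hD').1
      exact h.eq_of_three hDB' hDB hpy (fun e => hpY (e ▸ hc)) (fun e => hyY (e ▸ hc)) hpD' hyD'
        hcD' hpD hyD hcD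
    have h2 : ∀ D ∈ S, (Y ∩ D).card = 2 := by
      intro D hD
      obtain ⟨_, hD2, hD3⟩ := (hS D).1 hD
      rw [Finset.inter_comm]
      exact h.perp_card hD2 hD3
    rw [Finset.sum_congr rfl h2, Finset.sum_const, smul_eq_mul, mul_one, h.card_circle Y hY] at h1
    omega
  · right
    have hex : ∃ c ∈ Y, ∀ D ∈ S, c ∉ D := by
      by_contra hno
      apply hall
      intro c hc
      by_contra hno'
      exact hno ⟨c, hc, fun D hD hcD => hno' ⟨D, hD, hcD⟩⟩
    obtain ⟨c, hc, hcS⟩ := hex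
    -- all loci at `c` are in one class
    have htan : ∀ a ∈ Y, ∀ b ∈ Y, a ≠ c → b ≠ c → a ≠ b →
        (locus B Y c a ∩ locus B Y c b).card = 1 := by
      intro a ha b hb hac hbc hab
      rw [h.locus_inter hY hc ha hb hac hbc hab]
      exact Finset.card_singleton c
    obtain ⟨a0, ha0, ha0c⟩ : ∃ a ∈ Y, a ≠ c :=
      Finset.exists_mem_ne (by rw [h.card_circle Y hY]; have := h.three_le; omega) c
    have hK0 := hL Y hY c hc a0 ha0 ha0c
    have hprop : ∀ Q : Finset (Finset P), TanClosed B Q → locus B Y c a0 ∈ Q →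
        ∀ c' ∈ Y, c' ≠ c → locus B Y c c' ∈ Q := by
      intro Q hQ hQ0 c' hc' hne'
      by_cases e : c' = a0
      · rw [e]; exact hQ0
      · exact hQ.2 _ hQ0 _ (hL Y hY c hc c' hc' hne')
          (htan a0 ha0 c' hc' ha0c hne' (Ne.symm e))
    by_cases hK : locus B Y c a0 ∈ R
    · exact h.gap_aux hL hR hne hRB hY hpy hpY hyY hS hc hcS (hprop R hR hK)
    · have hne' : (B \ R).Nonempty := ⟨_, Finset.mem_sdiff.2 ⟨hK0, hK⟩⟩
      have hRB' : B \ R ≠ B := by
        intro e
        obtain ⟨E, hE⟩ := hne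
        have h1 : E ∈ B \ R := by rw [e]; exact hR.1 hE
        exact (Finset.mem_sdiff.1 h1).2 hE
      exact h.gap_aux hL hR.compl hne' hRB' hY hpy hpY hyY hS hc hcS
        (hprop _ hR.compl (Finset.mem_sdiff.2 ⟨hK0, hK⟩))

end InvPlane

end Pool.Agent.Lib.MP_1a7d7d_co
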