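import Pool.Agent.Lib.MP_1a7d7d_co.Defs

/-!
# Finite inversive planes of odd order: tangency loci

Counting lemmas for finite inversive planes of odd order: tangent circles, the parity argument of
Qvist, and the number of points of a tangency locus.
-/

set_option autoImplicit false

namespace Pool.Agent.Lib.MP_1a7d7d_co

open Finset

universe u

section aux

theorem card_filter_one {ι : Type*} [DecidableEq ι] {S : Finset ι} {p : ι → Prop} [DecidablePred p]
    (h : ∃! i, i ∈ S ∧ p i) : (S.filter p).card = 1 := by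
  obtain ⟨i, hi, hu⟩ := h
  rw [Finset.card_eq_one]
  refine ⟨i, ?_⟩
  ext j
  simp only [Finset.mem_filter, Finset.mem_singleton]
  constructor
  · intro hj; exact hu j hj
  · rintro rfl; exact hi

theorem existsUnique_zero {ι : Type*} [DecidableEq ι] {S : Finset ι} {f : ι → ℕ}
    (hf : ∀ i ∈ S, f i ≤ 1) (hs : ∑ i ∈ S, f i + 1 = S.card) : ∃! i, i ∈ S ∧ f i = 0 := by
  have h1 : S.card = ∑ i ∈ S, f i + (S.filter (fun i => f i = 0)).card := by
    rw [Finset.card_filter, ← Finset.sum_add_distrib, Finset.card_eq_sum_ones]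
    apply Finset.sum_congr rfl
    intro i hi
    have := hf i hi
    split_ifs with h0
    · omega
    · omega
  have h2 : (S.filter (fun i => f i = 0)).card = 1 := by omega
  obtain ⟨a, ha⟩ := Finset.card_eq_one.1 h2
  have ha' : a ∈ S.filter (fun i => f i = 0) := by rw [ha]; exact Finset.mem_singleton_self a
  refine ⟨a, Finset.mem_filter.1 ha', ?_⟩
  intro b hb
  have : b ∈ S.filter (fun i => f i = 0) := Finset.mem_filter.2 hb
  rw [ha] at this
  exact Finset.mem_singleton.1 this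

theorem even_card_one {ι : Type*} [DecidableEq ι] {S : Finset ι} {f : ι → ℕ}
    (hf : ∀ i ∈ S, f i ≤ 2) (he : Even (∑ i ∈ S, f i)) : Even (S.filter (fun i => f i = 1)).card := by
  have h1 := (Finset.even_sum_iff_even_card_odd f).1 he
  have h2 : S.filter (fun i => f i = 1) = S.filter (fun i => Odd (f i)) := by
    apply Finset.filter_congr
    intro i hi
    have := hf i hi
    constructor
    · intro h; rw [h]; exact odd_one
    · intro h
      rcases h with ⟨k, hk⟩
      omega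
  rw [h2]; exact h1

end aux

/-- the circles through `x` and `y` -/
def thr {P : Type u} [DecidableEq P] (B : Finset (Finset P)) (x y : P) : Finset (Finset P) :=
  B.filter fun C => x ∈ C ∧ y ∈ C

variable {P : Type u} [Fintype P] [DecidableEq P]

namespace InvPlane

variable {n : ℕ} {B : Finset (Finset P)} (h : InvPlane n B)

include h

theorem eq_of_three {C D : Finset P} (hC : C ∈ B) (hD : D ∈ B) {x y z : P} (hxy : x ≠ y)
    (hxz : x ≠ z) (hyz : y ≠ z) (hx : x ∈ C) (hy : y ∈ C) (hz : z ∈ C) (hx' : x ∈ D) (hy' : y ∈ D)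
    (hz' : z ∈ D) : C = D :=
  (h.unique x y z hxy hxz hyz).unique ⟨hC, hx, hy, hz⟩ ⟨hD, hx', hy', hz'⟩

theorem inter_card_le {C D : Finset P} (hC : C ∈ B) (hD : D ∈ B) (hne : C ≠ D) :
    (C ∩ D).card ≤ 2 := by
  by_contra hlt
  obtain ⟨x, hx, y, hy, z, hz, hxy, hxz, hyz⟩ := Finset.two_lt_card.1 (not_le.1 hlt)
  have hx' := Finset.mem_inter.1 hx
  have hy' := Finset.mem_inter.1 hy
  have hz' := Finset.mem_inter.1 hz
  exact hne (h.eq_of_three hC hD hxy hxz hyz hx'.1 hy'.1 hz'.1 hx'.2 hy'.2 hz'.2)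

theorem thr_unique {x y z : P} (hxy : x ≠ y) (hxz : x ≠ z) (hyz : y ≠ z) :
    ∃! C, C ∈ thr B x y ∧ z ∈ C := by
  obtain ⟨C, hC, hu⟩ := h.unique x y z hxy hxz hyz
  refine ⟨C, ⟨Finset.mem_filter.2 ⟨hC.1, hC.2.1, hC.2.2.1⟩, hC.2.2.2⟩, ?_⟩
  rintro D ⟨hD, hz⟩
  obtain ⟨h1, h2, h3⟩ := Finset.mem_filter.1 hD
  exact hu D ⟨h1, h2, h3, hz⟩

theorem thr_card {x y : P} (hxy : x ≠ y) : (thr B x y).card = n + 1 := by
  set A : Finset P := (Finset.univ.erase x).erase y with hA
  have hAc : A.card + 2 = n ^ 2 + 1 := by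
    rw [hA, Finset.card_erase_of_mem (Finset.mem_erase.2 ⟨hxy.symm, Finset.mem_univ y⟩),
      Finset.card_erase_of_mem (Finset.mem_univ x), Finset.card_univ, h.card_points]
    have := h.two_le
    have : 4 ≤ n ^ 2 := by nlinarith
    omega
  have h1 : ∑ C ∈ thr B x y, (A ∩ C).card = A.card * 1 := by
    apply Finset.sum_card_inter
    intro z hz
    rw [hA] at hz
    have hzy : z ≠ y := (Finset.mem_erase.1 hz).1
    have hzx : z ≠ x := (Finset.mem_erase.1 (Finset.mem_erase.1 hz).2).1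
    exact card_filter_one (h.thr_unique hxy hzx.symm hzy.symm)
  have h2 : ∀ C ∈ thr B x y, (A ∩ C).card + 1 = n := by
    intro C hC
    obtain ⟨hCB, hx, hy⟩ := Finset.mem_filter.1 hC
    have h3 : A ∩ C = (C.erase x).erase y := by
      ext z
      simp only [hA, Finset.mem_inter, Finset.mem_erase, Finset.mem_univ, and_true]
      tauto
    rw [h3, Finset.card_erase_of_mem (Finset.mem_erase.2 ⟨hxy.symm, hy⟩),
      Finset.card_erase_of_mem hx, h.card_circle C hCB]
    have := h.two_le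
    omega
  have h4 : ∀ C ∈ thr B x y, (A ∩ C).card = n - 1 := fun C hC => by have := h2 C hC; omega
  rw [Finset.sum_congr rfl h4, Finset.sum_const, smul_eq_mul, mul_one] at h1
  obtain ⟨k, rfl⟩ : ∃ k, n = k + 2 := ⟨n - 2, by have := h.two_le; omega⟩
  have h5 : A.card = (k + 2 + 1) * (k + 2 - 1) := by
    have : (k + 2 + 1) * (k + 2 - 1) + 2 = (k + 2) ^ 2 + 1 := by
      have : k + 2 - 1 = k + 1 := by omega
      rw [this]; ring
    omega
  rw [h5] at h1
  exact Nat.eq_of_mul_eq_mul_right (by omega) h1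

/-- through a point `x` off the circle `C` there is exactly one circle tangent to `C` at `p` -/
theorem tangent {C : Finset P} (hC : C ∈ B) {p x : P} (hp : p ∈ C) (hx : x ∉ C) :
    ∃! E, E ∈ B ∧ x ∈ E ∧ E ∩ C = {p} := by
  have hpx : p ≠ x := fun e => hx (e ▸ hp)
  have hle : ∀ E ∈ thr B p x, ((C.erase p) ∩ E).card ≤ 1 := by
    intro E hE
    obtain ⟨hEB, hpE, hxE⟩ := Finset.mem_filter.1 hE
    have hne : E ≠ C := fun e => hx (e ▸ hxE)
    have h1 := h.inter_card_le hEB hC hne
    have h2 : (C.erase p) ∩ E = (E ∩ C).erase p := by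
      ext z; simp only [Finset.mem_inter, Finset.mem_erase]; tauto
    rw [h2, Finset.card_erase_of_mem (Finset.mem_inter.2 ⟨hpE, hp⟩)]
    omega
  have hsum : ∑ E ∈ thr B p x, ((C.erase p) ∩ E).card + 1 = (thr B p x).card := by
    have h1 : ∑ E ∈ thr B p x, ((C.erase p) ∩ E).card = (C.erase p).card * 1 := by
      apply Finset.sum_card_inter
      intro z hz
      obtain ⟨hzp, hzC⟩ := Finset.mem_erase.1 hz
      have hxz : x ≠ z := fun e => hx (e ▸ hzC)
      exact card_filter_one (h.thr_unique hpx hzp.symm hxz)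
    rw [h1, h.thr_card hpx, Finset.card_erase_of_mem hp, h.card_circle C hC]
    omega
  obtain ⟨E, ⟨hE, h0⟩, hu⟩ := existsUnique_zero hle hsum
  have key : ∀ F ∈ thr B p x, ((C.erase p) ∩ F).card = 0 ↔ F ∩ C = {p} := by
    intro F hF
    obtain ⟨hFB, hpF, hxF⟩ := Finset.mem_filter.1 hF
    rw [Finset.card_eq_zero]
    constructor
    · intro he
      ext z
      simp only [Finset.mem_inter, Finset.mem_singleton]
      constructor
      · rintro ⟨hzF, hzC⟩
        by_contra hzp
        have : z ∈ (C.erase p) ∩ F := Finset.mem_inter.2 ⟨Finset.mem_erase.2 ⟨hzp, hzC⟩, hzF⟩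
        rw [he] at this
        exact absurd this (Finset.notMem_empty z)
      · rintro rfl; exact ⟨hpF, hp⟩
    · intro he
      rw [Finset.eq_empty_iff_forall_notMem]
      intro z hz
      obtain ⟨hz1, hz2⟩ := Finset.mem_inter.1 hz
      obtain ⟨hz3, hz4⟩ := Finset.mem_erase.1 hz1
      have : z ∈ F ∩ C := Finset.mem_inter.2 ⟨hz2, hz4⟩
      rw [he] at this
      exact hz3 (Finset.mem_singleton.1 this)
  obtain ⟨hEB, hpE, hxE⟩ := Finset.mem_filter.1 hE
  refine ⟨E, ⟨hEB, hxE, (key E hE).1 h0⟩, ?_⟩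
  rintro F ⟨hFB, hxF, hFC⟩
  have hpF : p ∈ F := by
    have : p ∈ F ∩ C := by rw [hFC]; exact Finset.mem_singleton_self p
    exact (Finset.mem_inter.1 this).1
  have hF : F ∈ thr B p x := Finset.mem_filter.2 ⟨hFB, hpF, hxF⟩
  exact hu F ⟨hF, (key F hF).2 hFC⟩

theorem tangent_unique {C : Finset P} (hC : C ∈ B) {p x : P} (hp : p ∈ C) (hx : x ∉ C)
    {E F : Finset P} (hE : E ∈ B) (hxE : x ∈ E) (hEC : E ∩ C = {p}) (hF : F ∈ B) (hxF : x ∈ F)
    (hFC : F ∩ C = {p}) : E = F :=
  (h.tangent hC hp hx).unique ⟨hE, hxE, hEC⟩ ⟨hF, hxF, hFC⟩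

theorem even_card {C : Finset P} (hC : C ∈ B) : Even C.card := by
  rw [h.card_circle C hC]
  exact h.odd.add_odd odd_one

/-- parity, affine point -/
theorem parity_thr {C : Finset P} (hC : C ∈ B) {x y : P} (hxy : x ≠ y) (hx : x ∉ C) (hy : y ∉ C) :
    Even ((thr B x y).filter (fun F => (C ∩ F).card = 1)).card := by
  apply even_card_one
  · intro F hF
    obtain ⟨hFB, hxF, hyF⟩ := Finset.mem_filter.1 hF
    exact h.inter_card_le hC hFB (fun e => hx (e ▸ hxF))
  · have h1 : ∑ F ∈ thr B x y, (C ∩ F).card = C.card * 1 := by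
      apply Finset.sum_card_inter
      intro z hz
      exact card_filter_one (h.thr_unique hxy (fun e => hx (e ▸ hz)) (fun e => hy (e ▸ hz)))
    rw [h1, mul_one]
    exact h.even_card hC

/-- parity, pencil -/
theorem parity_pencil {C E : Finset P} (hC : C ∈ B) (hE : E ∈ B) {x : P} (hxE : x ∈ E)
    (hx : x ∉ C) :
    Even ((B.filter (fun F => F = E ∨ F ∩ E = {x})).filter (fun F => (C ∩ F).card = 1)).card := by
  apply even_card_one
  · intro F hF
    obtain ⟨hFB, hF'⟩ := Finset.mem_filter.1 hF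
    have hxF : x ∈ F := by
      rcases hF' with e | e
      · rw [e]; exact hxE
      · have : x ∈ F ∩ E := by rw [e]; exact Finset.mem_singleton_self x
        exact (Finset.mem_inter.1 this).1
    exact h.inter_card_le hC hFB (fun e => hx (e ▸ hxF))
  · have h1 : ∑ F ∈ B.filter (fun F => F = E ∨ F ∩ E = {x}), (C ∩ F).card = C.card * 1 := by
      apply Finset.sum_card_inter
      intro z hz
      apply card_filter_one
      have hzx : z ≠ x := fun e => hx (e ▸ hz)
      by_cases hzE : z ∈ E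
      · refine ⟨E, ⟨Finset.mem_filter.2 ⟨hE, Or.inl rfl⟩, hzE⟩, ?_⟩
        rintro F ⟨hF, hzF⟩
        obtain ⟨hFB, hF'⟩ := Finset.mem_filter.1 hF
        rcases hF' with e | e
        · exact e
        · have : z ∈ F ∩ E := Finset.mem_inter.2 ⟨hzF, hzE⟩
          rw [e] at this
          exact absurd (Finset.mem_singleton.1 this) hzx
      · obtain ⟨F, ⟨hFB, hzF, hFE⟩, hu⟩ := h.tangent hE hxE hzE
        refine ⟨F, ⟨Finset.mem_filter.2 ⟨hFB, Or.inr hFE⟩, hzF⟩, ?_⟩
        rintro G ⟨hG, hzG⟩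
        obtain ⟨hGB, hG'⟩ := Finset.mem_filter.1 hG
        rcases hG' with e | e
        · exact absurd (e ▸ hzG) hzE
        · exact hu G ⟨hGB, hzG, e⟩
    rw [h1, mul_one]
    exact h.even_card hC

/-- In the pencil of a circle `E` tangent to `C` at a point `x` off `C` there is exactly one other
circle tangent to `C` (Qvist). -/
theorem qvist {C E : Finset P} (hC : C ∈ B) (hE : E ∈ B) {x p : P} (hxE : x ∈ E) (hx : x ∉ C)
    (hEC : E ∩ C = {p}) : ∃! F, F ∈ B ∧ x ∈ F ∧ F ∩ E = {x} ∧ (F ∩ C).card = 1 := by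
  have hpE : p ∈ E ∧ p ∈ C := by
    have : p ∈ E ∩ C := by rw [hEC]; exact Finset.mem_singleton_self p
    exact Finset.mem_inter.1 this
  have hpx : p ≠ x := fun e => hx (e ▸ hpE.2)
  set T : Finset (Finset P) := B.filter (fun F => x ∈ F ∧ (F ∩ C).card = 1) with hT
  have hTcard : T.card = n + 1 := by
    have h1 : ∑ F ∈ T, (C ∩ F).card = C.card * 1 := by
      apply Finset.sum_card_inter
      intro q hq
      apply card_filter_one
      obtain ⟨F, ⟨hFB, hxF, hFC⟩, hu⟩ := h.tangent hC hq hx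
      have hqF : q ∈ F := by
        have : q ∈ F ∩ C := by rw [hFC]; exact Finset.mem_singleton_self q
        exact (Finset.mem_inter.1 this).1
      refine ⟨F, ⟨Finset.mem_filter.2 ⟨hFB, hxF, by rw [hFC]; exact Finset.card_singleton q⟩, hqF⟩, ?_⟩
      rintro G ⟨hG, hqG⟩
      obtain ⟨hGB, hxG, hGC⟩ := Finset.mem_filter.1 hG
      refine hu G ⟨hGB, hxG, ?_⟩
      obtain ⟨a, ha⟩ := Finset.card_eq_one.1 hGC
      have : q ∈ G ∩ C := Finset.mem_inter.2 ⟨hqG, hq⟩
      rw [ha] at this ⊢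
      rw [Finset.mem_singleton.1 this]
    have h2 : ∀ F ∈ T, (C ∩ F).card = 1 := by
      intro F hF
      obtain ⟨_, _, h3⟩ := Finset.mem_filter.1 hF
      rw [Finset.inter_comm]; exact h3
    rw [Finset.sum_congr rfl h2, Finset.sum_const, smul_eq_mul, mul_one, mul_one,
      h.card_circle C hC] at h1
    exact h1
  have hET : E ∈ T := Finset.mem_filter.2 ⟨hE, hxE, by rw [hEC]; exact Finset.card_singleton p⟩
  set S := T.erase E with hS
  have hScard : S.card = n := by
    rw [hS, Finset.card_erase_of_mem hET, hTcard]; rfl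
  set s : Finset P := (E.erase x).erase p with hs
  have hscard : s.card + 1 = n := by
    rw [hs, Finset.card_erase_of_mem (Finset.mem_erase.2 ⟨hpx, hpE.1⟩),
      Finset.card_erase_of_mem hxE, h.card_circle E hE]
    have := h.two_le
    omega
  have hpF : ∀ F ∈ S, p ∉ F := by
    intro F hF hpF
    obtain ⟨hne, hFT⟩ := Finset.mem_erase.1 hF
    obtain ⟨hFB, hxF, hFC⟩ := Finset.mem_filter.1 hFT
    obtain ⟨a, ha⟩ := Finset.card_eq_one.1 hFC
    have hpa : p ∈ F ∩ C := Finset.mem_inter.2 ⟨hpF, hpE.2⟩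
    rw [ha] at hpa
    have : F ∩ C = {p} := by rw [ha, Finset.mem_singleton.1 hpa]
    exact hne (h.tangent_unique hC hpE.2 hx hFB hxF this hE hxE hEC)
  have hle : ∀ F ∈ S, (s ∩ F).card ≤ 1 := by
    intro F hF
    obtain ⟨hne, hFT⟩ := Finset.mem_erase.1 hF
    obtain ⟨hFB, hxF, hFC⟩ := Finset.mem_filter.1 hFT
    have h1 := h.inter_card_le hE hFB (Ne.symm hne)
    have h2 : (s ∩ F) ⊆ (E ∩ F).erase x := by
      intro z hz
      simp only [hs, Finset.mem_inter, Finset.mem_erase] at hz ⊢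
      tauto
    have h3 := Finset.card_le_card h2
    rw [Finset.card_erase_of_mem (Finset.mem_inter.2 ⟨hxE, hxF⟩)] at h3
    omega
  have hge : s.card * 1 ≤ ∑ F ∈ S, (s ∩ F).card := by
    apply Finset.le_sum_card_inter
    intro y hy
    simp only [hs, Finset.mem_erase] at hy
    obtain ⟨hyp, hyx, hyE⟩ := hy
    have hyC : y ∉ C := by
      intro hyC
      have : y ∈ E ∩ C := Finset.mem_inter.2 ⟨hyE, hyC⟩
      rw [hEC] at this
      exact hyp (Finset.mem_singleton.1 this)
    have hpar := h.parity_thr hC hyx.symm hx hyC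
    have hEin : E ∈ (thr B x y).filter (fun F => (C ∩ F).card = 1) := by
      refine Finset.mem_filter.2 ⟨Finset.mem_filter.2 ⟨hE, hxE, hyE⟩, ?_⟩
      rw [Finset.inter_comm, hEC]; exact Finset.card_singleton p
    have h1 : 1 < ((thr B x y).filter (fun F => (C ∩ F).card = 1)).card := by
      have hpos : 0 < ((thr B x y).filter (fun F => (C ∩ F).card = 1)).card :=
        Finset.card_pos.2 ⟨E, hEin⟩
      rcases hpar with ⟨k, hk⟩
      omega
    obtain ⟨F, hF, hne⟩ := Finset.exists_mem_ne h1 E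
    obtain ⟨hF1, hF2⟩ := Finset.mem_filter.1 hF
    obtain ⟨hFB, hxF, hyF⟩ := Finset.mem_filter.1 hF1
    apply Nat.succ_le_of_lt
    apply Finset.card_pos.2
    refine ⟨F, Finset.mem_filter.2 ⟨Finset.mem_erase.2 ⟨hne, Finset.mem_filter.2 ⟨hFB, hxF, ?_⟩⟩, hyF⟩⟩
    rw [Finset.inter_comm]; exact hF2
  -- a zero exists
  have hzero : ∃ F ∈ S, (s ∩ F).card = 0 := by
    have hpar := h.parity_pencil hC hE hxE hx
    have hEin : E ∈ (B.filter (fun F => F = E ∨ F ∩ E = {x})).filter (fun F => (C ∩ F).card = 1) := by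
      refine Finset.mem_filter.2 ⟨Finset.mem_filter.2 ⟨hE, Or.inl rfl⟩, ?_⟩
      rw [Finset.inter_comm, hEC]; exact Finset.card_singleton p
    have h1 : 1 < ((B.filter (fun F => F = E ∨ F ∩ E = {x})).filter
        (fun F => (C ∩ F).card = 1)).card := by
      have hpos : 0 < ((B.filter (fun F => F = E ∨ F ∩ E = {x})).filter
        (fun F => (C ∩ F).card = 1)).card := Finset.card_pos.2 ⟨E, hEin⟩
      rcases hpar with ⟨k, hk⟩
      omega
    obtain ⟨F, hF, hne⟩ := Finset.exists_mem_ne h1 E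
    obtain ⟨hF1, hF2⟩ := Finset.mem_filter.1 hF
    obtain ⟨hFB, hF3⟩ := Finset.mem_filter.1 hF1
    have hFE : F ∩ E = {x} := hF3.resolve_left hne
    have hxF : x ∈ F := by
      have : x ∈ F ∩ E := by rw [hFE]; exact Finset.mem_singleton_self x
      exact (Finset.mem_inter.1 this).1
    refine ⟨F, Finset.mem_erase.2 ⟨hne, Finset.mem_filter.2 ⟨hFB, hxF, ?_⟩⟩, ?_⟩
    · rw [Finset.inter_comm]; exact hF2
    · rw [Finset.card_eq_zero, Finset.eq_empty_iff_forall_notMem]
      intro z hz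
      simp only [hs, Finset.mem_inter, Finset.mem_erase] at hz
      have : z ∈ F ∩ E := Finset.mem_inter.2 ⟨hz.2, hz.1.2.2⟩
      rw [hFE] at this
      exact hz.1.2.1 (Finset.mem_singleton.1 this)
  have hsum : ∑ F ∈ S, (s ∩ F).card + 1 = S.card := by
    obtain ⟨F0, hF0, h0⟩ := hzero
    have h1 : ∑ F ∈ S, (s ∩ F).card ≤ n - 1 := by
      rw [← Finset.add_sum_erase S _ hF0, h0, zero_add]
      have h2 : ∑ F ∈ S.erase F0, (s ∩ F).card ≤ ∑ F ∈ S.erase F0, 1 :=
        Finset.sum_le_sum fun F hF => hle F (Finset.mem_of_mem_erase hF)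
      rw [Finset.sum_const, smul_eq_mul, mul_one, Finset.card_erase_of_mem hF0, hScard] at h2
      exact h2
    rw [hScard]
    have := h.two_le
    omega
  obtain ⟨F, ⟨hF, h0⟩, hu⟩ := existsUnique_zero hle hsum
  have key : ∀ G ∈ S, (s ∩ G).card = 0 ↔ G ∩ E = {x} := by
    intro G hG
    obtain ⟨hne, hGT⟩ := Finset.mem_erase.1 hG
    obtain ⟨hGB, hxG, hGC⟩ := Finset.mem_filter.1 hGT
    rw [Finset.card_eq_zero, Finset.eq_empty_iff_forall_notMem]
    constructor
    · intro he
      ext z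
      simp only [Finset.mem_inter, Finset.mem_singleton]
      constructor
      · rintro ⟨hzG, hzE⟩
        by_contra hzx
        apply he z
        simp only [hs, Finset.mem_inter, Finset.mem_erase]
        exact ⟨⟨fun e => hpF G hG (e ▸ hzG), hzx, hzE⟩, hzG⟩
      · rintro rfl; exact ⟨hxG, hxE⟩
    · intro he z hz
      simp only [hs, Finset.mem_inter, Finset.mem_erase] at hz
      have : z ∈ G ∩ E := Finset.mem_inter.2 ⟨hz.2, hz.1.2.2⟩
      rw [he] at this
      exact hz.1.2.1 (Finset.mem_singleton.1 this)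
  obtain ⟨hne, hFT⟩ := Finset.mem_erase.1 hF
  obtain ⟨hFB, hxF, hFC⟩ := Finset.mem_filter.1 hFT
  refine ⟨F, ⟨hFB, hxF, (key F hF).1 h0, hFC⟩, ?_⟩
  rintro G ⟨hGB, hxG, hGE, hGC⟩
  have hGne : G ≠ E := by
    rintro rfl
    have h1 := h.card_circle G hGB
    rw [Finset.inter_self] at hGE
    rw [hGE, Finset.card_singleton] at h1
    have := h.two_le
    omega
  have hG : G ∈ S := Finset.mem_erase.2 ⟨hGne, Finset.mem_filter.2 ⟨hGB, hxG, hGC⟩⟩
  exact hu G ⟨hG, (key G hG).2 hGE⟩

end InvPlane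

end Pool.Agent.Lib.MP_1a7d7d_co
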