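import Pool.Agent.Lib.MP_1a7d7d_co.Inv

/-!
# Finite inversive planes of odd order: perpendicular circles and tangency loci

The relation of the problem (rule (i): `perp2`, rules (i) and (ii): `perp`) and its description by
tangency loci.
-/

set_option autoImplicit false

namespace Pool.Agent.Lib.MP_1a7d7d_co

open Finset

universe u

variable {P : Type u} [Fintype P] [DecidableEq P]

theorem mem_loc {B : Finset (Finset P)} {C : Finset P} {p q x : P} :
    x ∈ loc B C p q ↔ x ∉ C ∧ ∀ E ∈ B, ∀ F ∈ B,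
      x ∈ E → E ∩ C = {p} → x ∈ F → F ∩ C = {q} → E ∩ F = {x} := by
  simp only [loc, Finset.mem_filter, Finset.mem_univ, true_and]

theorem mem_locus {B : Finset (Finset P)} {C : Finset P} {p q x : P} :
    x ∈ locus B C p q ↔ x = p ∨ x = q ∨ x ∈ loc B C p q := by
  simp only [locus, Finset.mem_union, Finset.mem_insert, Finset.mem_singleton, or_assoc]

theorem loc_symm (B : Finset (Finset P)) (C : Finset P) (p q : P) :
    loc B C p q = loc B C q p := by
  ext x
  rw [mem_loc, mem_loc]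
  constructor
  · rintro ⟨h1, h2⟩
    refine ⟨h1, fun E hE F hF hxE hEC hxF hFC => ?_⟩
    rw [Finset.inter_comm]
    exact h2 F hF E hE hxF hFC hxE hEC
  · rintro ⟨h1, h2⟩
    refine ⟨h1, fun E hE F hF hxE hEC hxF hFC => ?_⟩
    rw [Finset.inter_comm]
    exact h2 F hF E hE hxF hFC hxE hEC

theorem locus_symm (B : Finset (Finset P)) (C : Finset P) (p q : P) :
    locus B C p q = locus B C q p := by
  ext x
  rw [mem_locus, mem_locus, loc_symm]
  tauto

theorem left_mem_locus (B : Finset (Finset P)) (C : Finset P) (p q : P) : p ∈ locus B C p q :=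
  mem_locus.2 (Or.inl rfl)

theorem right_mem_locus (B : Finset (Finset P)) (C : Finset P) (p q : P) : q ∈ locus B C p q :=
  mem_locus.2 (Or.inr (Or.inl rfl))

theorem inter_locus {B : Finset (Finset P)} {C : Finset P} {p q : P} (hp : p ∈ C) (hq : q ∈ C) :
    C ∩ locus B C p q = {p, q} := by
  ext x
  simp only [Finset.mem_inter, mem_locus, Finset.mem_insert, Finset.mem_singleton]
  constructor
  · rintro ⟨hx, e | e | e⟩
    · exact Or.inl e
    · exact Or.inr e
    · exact absurd hx (mem_loc.1 e).1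
  · rintro (rfl | rfl)
    · exact ⟨hp, Or.inl rfl⟩
    · exact ⟨hq, Or.inr (Or.inl rfl)⟩

theorem mem_of_mem_locus {B : Finset (Finset P)} {C : Finset P} {p q x : P} (hx : x ∈ C)
    (hx' : x ∈ locus B C p q) : x = p ∨ x = q := by
  rcases mem_locus.1 hx' with e | e | e
  · exact Or.inl e
  · exact Or.inr e
  · exact absurd hx (mem_loc.1 e).1

theorem perp_iff {B : Finset (Finset P)} {C D : Finset P} (hne : (C ∩ D).Nonempty) :
    perp B C D ↔ perp2 B C D := by
  constructor
  · rintro ⟨_, h | ⟨h0, _⟩⟩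
    · exact h
    · rw [h0] at hne; exact absurd hne Finset.not_nonempty_empty
  · intro h; exact ⟨h.1, Or.inl h⟩

namespace InvPlane

variable {n : ℕ} {B : Finset (Finset P)} (h : InvPlane n B)

include h

theorem three_le : 3 ≤ n := by
  have h1 := h.two_le
  rcases h.odd with ⟨k, hk⟩
  omega

theorem mem_loc_iff {C : Finset P} (hC : C ∈ B) {p q x : P} (hp : p ∈ C) (hq : q ∈ C) (hx : x ∉ C)
    {E F : Finset P} (hE : E ∈ B) (hxE : x ∈ E) (hEC : E ∩ C = {p}) (hF : F ∈ B) (hxF : x ∈ F)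
    (hFC : F ∩ C = {q}) : x ∈ loc B C p q ↔ E ∩ F = {x} := by
  rw [mem_loc]
  constructor
  · rintro ⟨_, h2⟩; exact h2 E hE F hF hxE hEC hxF hFC
  · intro he
    refine ⟨hx, fun E' hE' F' hF' hxE' hEC' hxF' hFC' => ?_⟩
    rw [h.tangent_unique hC hp hx hE' hxE' hEC' hE hxE hEC,
      h.tangent_unique hC hq hx hF' hxF' hFC' hF hxF hFC]
    exact he

theorem ne_of_inter_singleton {C D : Finset P} (hC : C ∈ B) {x : P} (hx : C ∩ D = {x}) : C ≠ D := by
  rintro rfl
  have h1 := h.card_circle C hC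
  rw [Finset.inter_self] at hx
  rw [hx, Finset.card_singleton] at h1
  have := h.two_le
  omega

/-- for `p ∈ C` and `x` off `C` there is exactly one `q ≠ p` in `C` with `x` in the locus of `p`, `q` -/
theorem partner_off {C : Finset P} (hC : C ∈ B) {p x : P} (hp : p ∈ C) (hx : x ∉ C) :
    ∃! q, q ∈ C ∧ q ≠ p ∧ x ∈ loc B C p q := by
  obtain ⟨E, ⟨hE, hxE, hEC⟩, _⟩ := h.tangent hC hp hx
  obtain ⟨F, ⟨hF, hxF, hFE, hFC⟩, hFu⟩ := h.qvist hC hE hxE hx hEC
  obtain ⟨q, hq⟩ := Finset.card_eq_one.1 hFC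
  have hqC : q ∈ C := by
    have : q ∈ F ∩ C := by rw [hq]; exact Finset.mem_singleton_self q
    exact (Finset.mem_inter.1 this).2
  refine ⟨q, ⟨hqC, ?_, ?_⟩, ?_⟩
  · rintro rfl
    exact h.ne_of_inter_singleton hF hFE (h.tangent_unique hC hp hx hF hxF hq hE hxE hEC)
  · rw [h.mem_loc_iff hC hp hqC hx hE hxE hEC hF hxF hq, Finset.inter_comm]
    exact hFE
  · rintro q' ⟨hq'C, hq'p, hx'⟩
    obtain ⟨F', ⟨hF', hxF', hF'C⟩, _⟩ := h.tangent hC hq'C hx
    rw [h.mem_loc_iff hC hp hq'C hx hE hxE hEC hF' hxF' hF'C, Finset.inter_comm] at hx'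
    have := hFu F' ⟨hF', hxF', hx', by rw [hF'C]; exact Finset.card_singleton q'⟩
    rw [this, hq] at hF'C
    exact (Finset.singleton_injective hF'C).symm

/-- for `p ∈ C` and `x ≠ p` there is exactly one `q ≠ p` in `C` with `x` in the locus of `p`, `q` -/
theorem partner {C : Finset P} (hC : C ∈ B) {p x : P} (hp : p ∈ C) (hx : x ≠ p) :
    ∃! q, q ∈ C ∧ q ≠ p ∧ x ∈ locus B C p q := by
  by_cases hxC : x ∈ C
  · refine ⟨x, ⟨hxC, hx, right_mem_locus B C p x⟩, ?_⟩
    rintro q ⟨_, _, hq⟩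
    rcases mem_of_mem_locus hxC hq with e | e
    · exact absurd e hx
    · exact e.symm
  · obtain ⟨q, ⟨hqC, hqp, hxq⟩, hu⟩ := h.partner_off hC hp hxC
    refine ⟨q, ⟨hqC, hqp, mem_locus.2 (Or.inr (Or.inr hxq))⟩, ?_⟩
    rintro r ⟨hrC, hrp, hr⟩
    apply hu r
    refine ⟨hrC, hrp, ?_⟩
    rcases mem_locus.1 hr with e | e | e
    · exact absurd e hx
    · exact absurd (e ▸ hrC) hxC
    · exact e

/-- two loci of a circle with exactly one point in common on the circle have only this point in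
common -/
theorem locus_inter {C : Finset P} (hC : C ∈ B) {p q r : P} (hp : p ∈ C) (hq : q ∈ C) (hr : r ∈ C)
    (hqp : q ≠ p) (hrp : r ≠ p) (hqr : q ≠ r) : locus B C p q ∩ locus B C p r = {p} := by
  ext x
  simp only [Finset.mem_inter, Finset.mem_singleton]
  constructor
  · rintro ⟨h1, h2⟩
    by_contra hx
    exact hqr ((h.partner hC hp hx).unique ⟨hq, hqp, h1⟩ ⟨hr, hrp, h2⟩)
  · rintro rfl
    exact ⟨left_mem_locus _ _ _ _, left_mem_locus _ _ _ _⟩

theorem pencil_card {C : Finset P} (hC : C ∈ B) {p : P} (hp : p ∈ C) :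
    (B.filter (fun E => E ∩ C = {p})).card + 1 = n := by
  have hn := h.three_le
  have hcard : (Finset.univ \ C).card + (n + 1) = n ^ 2 + 1 := by
    have h1 : (Finset.univ \ C).card = Fintype.card P - C.card := by
      rw [Finset.card_sdiff_of_subset (Finset.subset_univ C), Finset.card_univ]
    have h2 := Finset.card_le_univ C
    rw [h.card_circle C hC, h.card_points] at h2
    rw [h1, h.card_circle C hC, h.card_points]
    omega
  have h1 : ∑ E ∈ B.filter (fun E => E ∩ C = {p}), ((Finset.univ \ C) ∩ E).card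
      = (Finset.univ \ C).card * 1 := by
    apply Finset.sum_card_inter
    intro x hx
    have hx' : x ∉ C := (Finset.mem_sdiff.1 hx).2
    apply card_filter_one
    obtain ⟨E, ⟨hE, hxE, hEC⟩, hu⟩ := h.tangent hC hp hx'
    refine ⟨E, ⟨Finset.mem_filter.2 ⟨hE, hEC⟩, hxE⟩, ?_⟩
    rintro F ⟨hF, hxF⟩
    obtain ⟨hFB, hFC⟩ := Finset.mem_filter.1 hF
    exact hu F ⟨hFB, hxF, hFC⟩
  have h2 : ∀ E ∈ B.filter (fun E => E ∩ C = {p}), ((Finset.univ \ C) ∩ E).card = n := by
    intro E hE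
    obtain ⟨hEB, hEC⟩ := Finset.mem_filter.1 hE
    have hpE : p ∈ E := by
      have : p ∈ E ∩ C := by rw [hEC]; exact Finset.mem_singleton_self p
      exact (Finset.mem_inter.1 this).1
    have h3 : (Finset.univ \ C) ∩ E = E.erase p := by
      ext x
      simp only [Finset.mem_inter, Finset.mem_sdiff, Finset.mem_univ, true_and, Finset.mem_erase]
      constructor
      · rintro ⟨hx1, hx2⟩
        exact ⟨fun e => hx1 (e ▸ hp), hx2⟩
      · rintro ⟨hx1, hx2⟩
        refine ⟨fun hxC => hx1 ?_, hx2⟩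
        have : x ∈ E ∩ C := Finset.mem_inter.2 ⟨hx2, hxC⟩
        rw [hEC] at this
        exact Finset.mem_singleton.1 this
    rw [h3, Finset.card_erase_of_mem hpE, h.card_circle E hEB]
    omega
  rw [Finset.sum_congr rfl h2, Finset.sum_const, smul_eq_mul, mul_one] at h1
  rw [← h1] at hcard
  nlinarith

/-- a tangency locus has `n + 1` points -/
theorem loc_card {C : Finset P} (hC : C ∈ B) {p q : P} (hp : p ∈ C) (hq : q ∈ C) (hpq : p ≠ q) :
    (loc B C p q).card + 1 = n := by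
  rw [← h.pencil_card hC hp]
  congr 1
  have h1 : ∑ E ∈ B.filter (fun E => E ∩ C = {p}), ((loc B C p q) ∩ E).card
      = (loc B C p q).card * 1 := by
    apply Finset.sum_card_inter
    intro x hx
    have hx' : x ∉ C := (mem_loc.1 hx).1
    apply card_filter_one
    obtain ⟨E, ⟨hE, hxE, hEC⟩, hu⟩ := h.tangent hC hp hx'
    refine ⟨E, ⟨Finset.mem_filter.2 ⟨hE, hEC⟩, hxE⟩, ?_⟩
    rintro F ⟨hF, hxF⟩
    obtain ⟨hFB, hFC⟩ := Finset.mem_filter.1 hF
    exact hu F ⟨hFB, hxF, hFC⟩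
  have h2 : ∀ E ∈ B.filter (fun E => E ∩ C = {p}), ((loc B C p q) ∩ E).card = 1 := by
    intro E hE
    obtain ⟨hEB, hEC⟩ := Finset.mem_filter.1 hE
    have hqE : q ∉ E := by
      intro hqE
      have : q ∈ E ∩ C := Finset.mem_inter.2 ⟨hqE, hq⟩
      rw [hEC] at this
      exact hpq (Finset.mem_singleton.1 this).symm
    obtain ⟨F, ⟨hF, hqF, hFC, hFE⟩, hFu⟩ := h.qvist hEB hC hq hqE
      (show C ∩ E = {p} by rw [Finset.inter_comm]; exact hEC)
    obtain ⟨x, hx⟩ := Finset.card_eq_one.1 hFE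
    have hx' : x ∈ F ∩ E := by rw [hx]; exact Finset.mem_singleton_self x
    obtain ⟨hxF, hxE⟩ := Finset.mem_inter.1 hx'
    have hxC : x ∉ C := by
      intro hxC
      have : x ∈ F ∩ C := Finset.mem_inter.2 ⟨hxF, hxC⟩
      rw [hFC] at this
      exact hqE ((Finset.mem_singleton.1 this) ▸ hxE)
    rw [Finset.card_eq_one]
    refine ⟨x, ?_⟩
    ext y
    simp only [Finset.mem_inter, Finset.mem_singleton]
    constructor
    · rintro ⟨hy, hyE⟩
      have hyC : y ∉ C := (mem_loc.1 hy).1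
      obtain ⟨F', ⟨hF', hyF', hF'C⟩, _⟩ := h.tangent hC hq hyC
      rw [h.mem_loc_iff hC hp hq hyC hEB hyE hEC hF' hyF' hF'C, Finset.inter_comm] at hy
      have hqF' : q ∈ F' := by
        have : q ∈ F' ∩ C := by rw [hF'C]; exact Finset.mem_singleton_self q
        exact (Finset.mem_inter.1 this).1
      have := hFu F' ⟨hF', hqF', hF'C, by rw [hy]; exact Finset.card_singleton y⟩
      rw [this, hx] at hy
      exact (Finset.singleton_injective hy).symm
    · rintro rfl
      refine ⟨?_, hxE⟩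
      rw [h.mem_loc_iff hC hp hq hxC hEB hxE hEC hF hxF hFC, Finset.inter_comm]
      exact hx
  rw [Finset.sum_congr rfl h2, Finset.sum_const, smul_eq_mul, mul_one, mul_one] at h1
  exact h1.symm

theorem locus_card {C : Finset P} (hC : C ∈ B) {p q : P} (hp : p ∈ C) (hq : q ∈ C) (hpq : p ≠ q) :
    (locus B C p q).card = n + 1 := by
  have h1 := h.loc_card hC hp hq hpq
  have hdis : Disjoint ({p, q} : Finset P) (loc B C p q) := by
    rw [Finset.disjoint_left]
    intro x hx hx'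
    have hxC := (mem_loc.1 hx').1
    rcases Finset.mem_insert.1 hx with e | e
    · exact hxC (e ▸ hp)
    · exact hxC ((Finset.mem_singleton.1 e) ▸ hq)
  rw [locus, Finset.card_union_of_disjoint hdis, Finset.card_pair hpq]
  omega

theorem perp2_iff_locus {C D : Finset P} (hC : C ∈ B) (hD : D ∈ B) :
    perp2 B C D ↔ ∃ p ∈ C, ∃ q ∈ C, p ≠ q ∧ D = locus B C p q := by
  constructor
  · rintro ⟨_, p, q, hpq, hCD, hx⟩
    have hp : p ∈ C ∩ D := by rw [hCD]; exact Finset.mem_insert_self p _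
    have hq : q ∈ C ∩ D := by
      rw [hCD]; exact Finset.mem_insert_of_mem (Finset.mem_singleton_self q)
    have hp' := Finset.mem_inter.1 hp
    have hq' := Finset.mem_inter.1 hq
    refine ⟨p, hp'.1, q, hq'.1, hpq, ?_⟩
    apply Finset.eq_of_subset_of_card_le
    · intro x hxD
      rw [mem_locus]
      by_cases hxp : x = p
      · exact Or.inl hxp
      by_cases hxq : x = q
      · exact Or.inr (Or.inl hxq)
      refine Or.inr (Or.inr (mem_loc.2 ⟨?_, hx x hxD hxp hxq⟩))
      intro hxC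
      have : x ∈ C ∩ D := Finset.mem_inter.2 ⟨hxC, hxD⟩
      rw [hCD] at this
      rcases Finset.mem_insert.1 this with e | e
      · exact hxp e
      · exact hxq (Finset.mem_singleton.1 e)
    · rw [h.locus_card hC hp'.1 hq'.1 hpq, h.card_circle D hD]
  · rintro ⟨p, hp, q, hq, hpq, rfl⟩
    have hCD : C ∩ locus B C p q = {p, q} := inter_locus hp hq
    refine ⟨?_, p, q, hpq, hCD, ?_⟩
    · intro e
      rw [← e, Finset.inter_self] at hCD
      have h1 := h.card_circle C hC
      rw [hCD, Finset.card_pair hpq] at h1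
      have := h.three_le
      omega
    · intro x hx hxp hxq
      rcases mem_locus.1 hx with e | e | e
      · exact absurd e hxp
      · exact absurd e hxq
      · exact (mem_loc.1 e).2

theorem exists_locus {C D : Finset P} (hC : C ∈ B) (hD : D ∈ B) {p : P} (hp : p ∈ C) (hpD : p ∈ D)
    (hCD : perp B C D) : ∃ s ∈ C, s ≠ p ∧ D = locus B C p s := by
  rw [perp_iff ⟨p, Finset.mem_inter.2 ⟨hp, hpD⟩⟩, h.perp2_iff_locus hC hD] at hCD
  obtain ⟨a, ha, b, hb, hab, e⟩ := hCD
  rw [e] at hpD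
  rcases mem_of_mem_locus hp hpD with e' | e'
  · subst e'; exact ⟨b, hb, hab.symm, e⟩
  · subst e'; exact ⟨a, ha, hab, by rw [locus_symm]; exact e⟩

theorem perp_locus {C : Finset P} (hC : C ∈ B) {p q : P} (hp : p ∈ C) (hq : q ∈ C) (hpq : p ≠ q)
    (hD : locus B C p q ∈ B) : perp B C (locus B C p q) := by
  rw [perp_iff ⟨p, Finset.mem_inter.2 ⟨hp, left_mem_locus B C p q⟩⟩, h.perp2_iff_locus hC hD]
  exact ⟨p, hp, q, hq, hpq, rfl⟩

/-- at most one circle `D` through `p ∈ C` and `q ≠ p` satisfies `perp C D` -/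
theorem perp_unique {C D D' : Finset P} (hC : C ∈ B) (hD : D ∈ B) (hD' : D' ∈ B) {p q : P}
    (hp : p ∈ C) (hqp : q ≠ p) (hpD : p ∈ D) (hqD : q ∈ D) (hpD' : p ∈ D') (hqD' : q ∈ D')
    (h1 : perp B C D) (h2 : perp B C D') : D = D' := by
  obtain ⟨s, hs, hsp, e⟩ := h.exists_locus hC hD hp hpD h1
  obtain ⟨t, ht, htp, e'⟩ := h.exists_locus hC hD' hp hpD' h2
  rw [e] at hqD
  rw [e'] at hqD'
  have := (h.partner hC hp hqp).unique ⟨hs, hsp, hqD⟩ ⟨ht, htp, hqD'⟩
  rw [e, e', this]

end InvPlane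

end Pool.Agent.Lib.MP_1a7d7d_co
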