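import Pool.Agent.Lib.MP_1a7d7d_co.Classes

/-!
# Finite inversive planes of odd order: the bundle axiom

If all tangency loci are circles and the bundle axiom (O3) holds in the case that `A` is disjoint from
`C` and `A'` meets `C`, then (O1), (O2) and (O3) hold.
-/

set_option autoImplicit false

namespace Pool.Agent.Lib.MP_1a7d7d_co

open Finset

universe u

variable {P : Type u} [Fintype P] [DecidableEq P]

namespace InvPlane

variable {n : ℕ} {B : Finset (Finset P)} (h : InvPlane n B)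

include h

theorem circle_nonempty {C : Finset P} (hC : C ∈ B) : C.Nonempty := by
  rw [← Finset.card_pos, h.card_circle C hC]
  omega

/-- two circles through `z` which meet `C` and are perpendicular to `C` -/
theorem exists_two_perp (hL : LociAreCircles B) {C : Finset P} (hC : C ∈ B) {z : P} (hz : z ∉ C) :
    ∃ D ∈ B, ∃ D' ∈ B, D ≠ D' ∧ z ∈ D ∧ z ∈ D' ∧ (D ∩ C).Nonempty ∧ (D' ∩ C).Nonempty ∧
      perp B D C ∧ perp B D' C ∧ (D ∩ D').card = 2 := by
  have hO := h.axiomTwo_of_loci hL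
  obtain ⟨c, hc⟩ := h.circle_nonempty hC
  have hzc : z ≠ c := fun e => hz (e ▸ hc)
  obtain ⟨D, ⟨hD, hcD, hzD, hDC⟩, _⟩ := hO C hC c hc z hzc
  have hne : (D ∩ C).Nonempty := ⟨c, Finset.mem_inter.2 ⟨hcD, hc⟩⟩
  have hcard := h.perp_card hne hDC
  obtain ⟨c', hc', hc'D⟩ : ∃ c' ∈ C, c' ∉ D := by
    by_contra hno
    have hsub : C ⊆ D ∩ C := by
      intro x hx
      by_contra hx'
      apply hno
      exact ⟨x, hx, fun e => hx' (Finset.mem_inter.2 ⟨e, hx⟩)⟩
    have h1 := Finset.card_le_card hsub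
    rw [hcard, h.card_circle C hC] at h1
    have := h.three_le
    omega
  have hzc' : z ≠ c' := fun e => hz (e ▸ hc')
  obtain ⟨D', ⟨hD', hcD', hzD', hDC'⟩, _⟩ := hO C hC c' hc' z hzc'
  have hne' : (D' ∩ C).Nonempty := ⟨c', Finset.mem_inter.2 ⟨hcD', hc'⟩⟩
  have hDD' : D ≠ D' := fun e => hc'D (e ▸ hcD')
  exact ⟨D, hD, D', hD', hDD', hzD, hzD', hne, hne', hDC, hDC',
    h.two_meet hL hC hD hD' hz hDD' hzD hzD' hne hne' hDC hDC'⟩

/-- (O1) for disjoint circles -/
theorem symm_disjoint (hL : LociAreCircles B) (hM : BundleMixed B) {A C : Finset P} (hA : A ∈ B)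
    (hC : C ∈ B) (hAC : A ∩ C = ∅) (h1 : perp B A C) : perp B C A := by
  obtain ⟨p, hpA⟩ := h.circle_nonempty hA
  have off : ∀ x ∈ A, x ∉ C := by
    intro x hx hxC
    have : x ∈ A ∩ C := Finset.mem_inter.2 ⟨hx, hxC⟩
    rw [hAC] at this
    exact absurd this (Finset.notMem_empty x)
  have hpC := off p hpA
  obtain ⟨D, hD, D', hD', hne, hpD, hpD', hDC, hDC', h2, h3, hcard⟩ := h.exists_two_perp hL hC hpC
  have key : ∀ E ∈ B, p ∈ E → (E ∩ C).Nonempty → perp B E C → E ∩ A ≠ {p} → perp B C A := by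
    intro E hE hpE hEC hEC' hEA
    obtain ⟨q, hq, hqp⟩ : ∃ q ∈ E ∩ A, q ≠ p := by
      by_contra hno
      apply hEA
      ext x
      rw [Finset.mem_singleton]
      constructor
      · intro hx
        by_contra hxp
        exact hno ⟨x, hx, hxp⟩
      · rintro rfl; exact Finset.mem_inter.2 ⟨hpE, hpA⟩
    obtain ⟨hqE, hqA⟩ := Finset.mem_inter.1 hq
    have h4 := h.perp_symm hL hE hC hEC hEC'
    exact hM p q hqp.symm A hA E hE C hC hAC hEC hpA hqA hpE hqE h1 h4 A hA hpA hqA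
  by_cases e1 : D ∩ A = {p}
  · by_cases e2 : D' ∩ A = {p}
    · have h5 := h.tan_trans hA hD hD' e1 e2 hne
      rw [h5, Finset.card_singleton] at hcard
      omega
    · exact key D' hD' hpD' hDC' h3 e2
  · exact key D hD hpD hDC h2 e1

/-- (O3) when both circles meet `C` -/
theorem bundle_meet (hL : LociAreCircles B) (hM : BundleMixed B) {p q : P} (hpq : p ≠ q)
    {A A' C : Finset P} (hA : A ∈ B) (hA' : A' ∈ B) (hC : C ∈ B) (hpC : p ∉ C) (hqC : q ∉ C)
    (hne : A ≠ A') (hpA : p ∈ A) (hqA : q ∈ A) (hpA' : p ∈ A') (hqA' : q ∈ A')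
    (hAC : (A ∩ C).Nonempty) (hAC' : (A' ∩ C).Nonempty) (h1 : perp B A C) (h2 : perp B C A') :
    ∀ X ∈ B, p ∈ X → q ∈ X → perp B C X := by
  have hcard := h.perp_card hAC h1
  have hCA' : (C ∩ A').Nonempty := by rw [Finset.inter_comm]; exact hAC'
  have hcard' : (A' ∩ C).card = 2 := by
    rw [Finset.inter_comm]; exact h.perp_card hCA' h2
  obtain ⟨X, hX, hpX, hqX, hXC⟩ : ∃ X ∈ B, p ∈ X ∧ q ∈ X ∧ X ∩ C = ∅ := by
    by_contra hno
    have hsum : ∑ X ∈ thr B p q, (C ∩ X).card = C.card * 1 := by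
      apply Finset.sum_card_inter
      intro c hc
      exact card_filter_one (h.thr_unique hpq (fun e => hpC (e ▸ hc)) (fun e => hqC (e ▸ hc)))
    have hAt : A ∈ thr B p q := Finset.mem_filter.2 ⟨hA, hpA, hqA⟩
    have hge : ∀ X ∈ thr B p q, 1 ≤ (C ∩ X).card := by
      intro X hX
      obtain ⟨hXB, hpX, hqX⟩ := Finset.mem_filter.1 hX
      apply Nat.succ_le_of_lt
      apply Finset.card_pos.2
      rw [Finset.inter_comm]
      by_contra he
      exact hno ⟨X, hXB, hpX, hqX, Finset.not_nonempty_iff_eq_empty.1 he⟩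
    have h3 : ∑ X ∈ (thr B p q).erase A, 1 ≤ ∑ X ∈ (thr B p q).erase A, (C ∩ X).card :=
      Finset.sum_le_sum fun X hX => hge X (Finset.mem_of_mem_erase hX)
    rw [Finset.sum_const, smul_eq_mul, mul_one, Finset.card_erase_of_mem hAt, h.thr_card hpq] at h3
    rw [← Finset.add_sum_erase _ _ hAt, Finset.inter_comm C A, hcard, h.card_circle C hC] at hsum
    omega
  have hCX : C ∩ X = ∅ := by rw [Finset.inter_comm]; exact hXC
  have hCX' : C ≠ X := by
    rintro rfl
    rw [Finset.inter_self] at hXC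
    have := h.circle_nonempty hC
    rw [hXC] at this
    exact Finset.not_nonempty_empty this
  have h3 : perp B C X := by
    refine ⟨hCX', Or.inr ⟨hCX, p, hpX, q, hqX, hpq, A, hA, A', hA', hne, hpA, hqA, hpA', hqA',
      hcard, hcard', ?_, ?_⟩⟩
    · exact (perp_iff hAC).1 h1
    · exact (perp_iff hCA').1 h2
  have h4 := h.symm_disjoint hL hM hC hX hCX h3
  exact hM p q hpq X hX A hA C hC hXC hAC hpX hqX hpA hqA h4 (h.perp_symm hL hA hC hAC h1)

/-- a circle `A` disjoint from `C` with `perp C A` contains with `p` the second common point of any two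
circles through `p` which meet `C` and are perpendicular to `C` -/
theorem inverse_mem (hL : LociAreCircles B) (hM : BundleMixed B) {A C : Finset P} (hA : A ∈ B)
    (hC : C ∈ B) (hAC : A ∩ C = ∅) (h1 : perp B C A) {p p' : P} (hpA : p ∈ A) (hpp' : p' ≠ p)
    {D D' : Finset P} (hD : D ∈ B) (hD' : D' ∈ B) (hne : D ≠ D') (hpD : p ∈ D) (hpD' : p ∈ D')
    (hp'D : p' ∈ D) (hp'D' : p' ∈ D') (hDC : (D ∩ C).Nonempty) (hDC' : (D' ∩ C).Nonempty)
    (h2 : perp B D C) (h3 : perp B D' C) : p' ∈ A := by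
  have off : ∀ x ∈ A, x ∉ C := by
    intro x hx hxC
    have : x ∈ A ∩ C := Finset.mem_inter.2 ⟨hx, hxC⟩
    rw [hAC] at this
    exact absurd this (Finset.notMem_empty x)
  have hpC := off p hpA
  have key : ∀ E F : Finset P, E ∈ B → F ∈ B → E ≠ F → p ∈ E → p ∈ F → p' ∈ E → p' ∈ F →
      (E ∩ C).Nonempty → (F ∩ C).Nonempty → perp B E C → perp B F C → E ∩ A ≠ {p} → p' ∈ A := by
    intro E F hE hF hEF hpE hpF hp'E hp'F hEC hFC hE1 hF1 hEA
    obtain ⟨r, hr, hrp⟩ : ∃ r ∈ E ∩ A, r ≠ p := by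
      by_contra hno
      apply hEA
      ext x
      rw [Finset.mem_singleton]
      constructor
      · intro hx
        by_contra hxp
        exact hno ⟨x, hx, hxp⟩
      · rintro rfl; exact Finset.mem_inter.2 ⟨hpE, hpA⟩
    obtain ⟨hrE, hrA⟩ := Finset.mem_inter.1 hr
    have hrC := off r hrA
    have hCA : C ∩ A = ∅ := by rw [Finset.inter_comm]; exact hAC
    have h4 := hM p r hrp.symm A hA E hE C hC hAC hEC hpA hrA hpE hrE
      (h.symm_disjoint hL hM hC hA hCA h1) (h.perp_symm hL hE hC hEC hE1)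
    obtain ⟨c, hc⟩ := hFC
    obtain ⟨hcF, hcC⟩ := Finset.mem_inter.1 hc
    have hpc : p ≠ c := fun e => hpC (e ▸ hcC)
    have hrc : r ≠ c := fun e => hrC (e ▸ hcC)
    obtain ⟨X, ⟨hX, hpX, hrX, hcX⟩, _⟩ := h.unique p r c hrp.symm hpc hrc
    have h5 := h4 X hX hpX hrX
    have h6 := h.perp_symm hL hF hC ⟨c, hc⟩ hF1
    have h7 := h.perp_unique hC hX hF hcC hpc hcX hpX hcF hpF h5 h6
    rw [h7] at hrX
    by_cases e : r = p'
    · rw [← e]; exact hrA
    · exact absurd (h.eq_of_three hE hF hrp.symm hpp'.symm e hpE hrE hp'E hpF hrX hp'F) hEF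
  by_cases e1 : D ∩ A = {p}
  · by_cases e2 : D' ∩ A = {p}
    · have h5 := h.tan_trans hA hD hD' e1 e2 hne
      have h6 : p' ∈ D ∩ D' := Finset.mem_inter.2 ⟨hp'D, hp'D'⟩
      rw [h5] at h6
      exact absurd (Finset.mem_singleton.1 h6) hpp'
    · exact key D' D hD' hD hne.symm hpD' hpD hp'D' hp'D hDC' hDC h3 h2 e2
  · exact key D D' hD hD' hne hpD hpD' hp'D hp'D' hDC hDC' h2 h3 e1

/-- (O3) when neither circle meets `C` -/
theorem bundle_disjoint (hL : LociAreCircles B) (hM : BundleMixed B) {p q : P} (hpq : p ≠ q)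
    {A A' C : Finset P} (hA : A ∈ B) (hA' : A' ∈ B) (hC : C ∈ B) (hpC : p ∉ C) (hqC : q ∉ C)
    (hne : A ≠ A') (hpA : p ∈ A) (hqA : q ∈ A) (hpA' : p ∈ A') (hqA' : q ∈ A')
    (hAC : A ∩ C = ∅) (hAC' : A' ∩ C = ∅) (h1 : perp B A C) (h2 : perp B C A') :
    ∀ X ∈ B, p ∈ X → q ∈ X → perp B C X := by
  have h3 := h.symm_disjoint hL hM hA hC hAC h1
  obtain ⟨D, hD, D', hD', hDD', hpD, hpD', hDC, hDC', h4, h5, hcard⟩ := h.exists_two_perp hL hC hpC
  obtain ⟨p', hp', hpp'⟩ : ∃ p' ∈ D ∩ D', p' ≠ p :=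
    Finset.exists_mem_ne (by rw [hcard]; omega) p
  obtain ⟨hp'D, hp'D'⟩ := Finset.mem_inter.1 hp'
  have h6 := h.inverse_mem hL hM hA hC hAC h3 hpA hpp' hD hD' hDD' hpD hpD' hp'D hp'D' hDC hDC' h4 h5
  have h7 := h.inverse_mem hL hM hA' hC hAC' h2 hpA' hpp' hD hD' hDD' hpD hpD' hp'D hp'D' hDC hDC'
    h4 h5
  have h8 : q = p' := by
    by_contra e
    exact hne (h.eq_of_three hA hA' hpq hpp'.symm e hpA hqA h6 hpA' hqA' h7)
  subst h8
  exact h.bundle_meet hL hM hpq hD hD' hC hpC hqC hDD' hpD hp'D hpD' hp'D' hDC hDC' h4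
    (h.perp_symm hL hD' hC hDC' h5)

/-- no two circles through `p ∈ C` and `q ≠ p` are perpendicular to `C` -/
theorem not_bundle_on (hL : LociAreCircles B) {p q : P} (hpq : p ≠ q) {A A' C : Finset P}
    (hA : A ∈ B) (hA' : A' ∈ B) (hC : C ∈ B) (hne : A ≠ A') (hpA : p ∈ A) (hqA : q ∈ A)
    (hpA' : p ∈ A') (hqA' : q ∈ A') (hpC : p ∈ C) (h1 : perp B A C) (h2 : perp B C A') : False := by
  have h3 := h.perp_symm hL hA hC ⟨p, Finset.mem_inter.2 ⟨hpA, hpC⟩⟩ h1
  exact hne (h.perp_unique hC hA hA' hpC hpq.symm hpA hqA hpA' hqA' h3 h2)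

theorem isOrthogonality_of (hL : LociAreCircles B) (hM : BundleMixed B) : IsOrthogonality B := by
  refine ⟨?_, h.axiomTwo_of_loci hL, ?_⟩
  · intro C hC D hD hCD
    rcases Finset.eq_empty_or_nonempty (C ∩ D) with he | hne
    · exact h.symm_disjoint hL hM hC hD he hCD
    · exact h.perp_symm hL hC hD hne hCD
  · intro p q hpq A hA A' hA' C hC hne hpA hqA hpA' hqA' hAC hCA'
    by_cases hpC : p ∈ C
    · exact (h.not_bundle_on hL hpq hA hA' hC hne hpA hqA hpA' hqA' hpC hAC hCA').elim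
    by_cases hqC : q ∈ C
    · exact (h.not_bundle_on hL hpq.symm hA hA' hC hne hqA hpA hqA' hpA' hqC hAC hCA').elim
    rcases Finset.eq_empty_or_nonempty (A ∩ C) with he | he
    · rcases Finset.eq_empty_or_nonempty (A' ∩ C) with he' | he'
      · exact h.bundle_disjoint hL hM hpq hA hA' hC hpC hqC hne hpA hqA hpA' hqA' he he' hAC hCA'
      · exact hM p q hpq A hA A' hA' C hC he he' hpA hqA hpA' hqA' hAC hCA'
    · rcases Finset.eq_empty_or_nonempty (A' ∩ C) with he' | he'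
      · have hCA0 : C ∩ A' = ∅ := by rw [Finset.inter_comm]; exact he'
        exact hM p q hpq A' hA' A hA C hC he' he hpA' hqA' hpA hqA
          (h.symm_disjoint hL hM hC hA' hCA0 hCA') (h.perp_symm hL hA hC he hAC)
      · exact h.bundle_meet hL hM hpq hA hA' hC hpC hqC hne hpA hqA hpA' hqA' he he' hAC hCA'

end InvPlane

end Pool.Agent.Lib.MP_1a7d7d_co
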