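import Pool.Agent.Lib.MP_1a7d7d_co.Classes

/-!
# Finite inversive planes of odd order: common tangent circles and common perpendiculars of two circles

The number of circles tangent to two given circles and, under (O2), the number of circles which meet two
given circles and are perpendicular to both; perpendicular circles and tangency classes.
-/

set_option autoImplicit false

namespace Pool.Agent.Lib.MP_1a7d7d_co

open Finset

universe u

/-- the circles tangent to `C` and to `D` -/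
def tans {P : Type u} [DecidableEq P] (B : Finset (Finset P)) (C D : Finset P) : Finset (Finset P) :=
  B.filter fun E => (E ∩ C).card = 1 ∧ (E ∩ D).card = 1

variable {P : Type u} [Fintype P] [DecidableEq P]

omit [Fintype P] in
theorem tans_at_eq {B : Finset (Finset P)} {C D : Finset P} (hCD : (C ∩ D).card ≠ 1) {x : P} (hxC : x ∈ C) :
    (tans B C D).filter (fun E => x ∈ E)
      = (B.filter (fun F => F = C ∨ F ∩ C = {x})).filter (fun F => (D ∩ F).card = 1) := by
  ext E
  simp only [tans, Finset.mem_filter]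
  constructor
  · rintro ⟨⟨hEB, h1, h2⟩, hxE⟩
    obtain ⟨a, ha⟩ := Finset.card_eq_one.1 h1
    have : x ∈ E ∩ C := Finset.mem_inter.2 ⟨hxE, hxC⟩
    rw [ha] at this
    rw [← Finset.mem_singleton.1 this] at ha
    exact ⟨⟨hEB, Or.inr ha⟩, by rw [Finset.inter_comm]; exact h2⟩
  · rintro ⟨⟨hEB, e⟩, h2⟩
    rcases e with e | e
    · rw [e, Finset.inter_comm] at h2
      exact absurd h2 hCD
    · have : x ∈ E ∩ C := by rw [e]; exact Finset.mem_singleton_self x
      exact ⟨⟨hEB, by rw [e]; exact Finset.card_singleton x, by rw [Finset.inter_comm]; exact h2⟩,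
        (Finset.mem_inter.1 this).1⟩

namespace InvPlane

variable {n : ℕ} {B : Finset (Finset P)} (h : InvPlane n B)

include h

/-- two circles of one tangency class: the pencil of `C` at a point `x` off `D` contains exactly two
circles tangent to `D` -/
theorem pencil_two {R : Finset (Finset P)} (hR : TanClosed B R) (hRB : R ≠ B) {C D : Finset P}
    (hC : C ∈ R) (hD : D ∈ R) {x : P} (hxC : x ∈ C) (hxD : x ∉ D) :
    ((B.filter (fun F => F = C ∨ F ∩ C = {x})).filter (fun F => (D ∩ F).card = 1)).card = 2 := by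
  classical
  have hCB := hR.1 hC
  have hDB := hR.1 hD
  have hn := h.three_le
  have hpar := h.parity_pencil hDB hCB hxC hxD
  have hmem : ∀ F, F ∈ (B.filter (fun F => F = C ∨ F ∩ C = {x})) → x ∈ F := by
    intro F hF
    rcases (Finset.mem_filter.1 hF).2 with e | e
    · rw [e]; exact hxC
    · have : x ∈ F ∩ C := by rw [e]; exact Finset.mem_singleton_self x
      exact (Finset.mem_inter.1 this).1
  have hle : ((B.filter (fun F => F = C ∨ F ∩ C = {x})).filter
      (fun F => (D ∩ F).card = 1)).card ≤ 2 := by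
    apply h.pencil_touch_le hDB hxD
    · intro E hE
      obtain ⟨h1, h2⟩ := Finset.mem_filter.1 hE
      exact ⟨(Finset.mem_filter.1 h1).1, hmem E h1, by rw [Finset.inter_comm]; exact h2⟩
    · intro E hE F hF hEF
      obtain ⟨h1, _⟩ := Finset.mem_filter.1 hE
      obtain ⟨h2, _⟩ := Finset.mem_filter.1 hF
      obtain ⟨hEB, h3⟩ := Finset.mem_filter.1 h1
      obtain ⟨hFB, h4⟩ := Finset.mem_filter.1 h2
      rcases h3 with e | e
      · rcases h4 with e' | e'
        · exact absurd (e.trans e'.symm) hEF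
        · rw [e, Finset.inter_comm]; exact e'
      · rcases h4 with e' | e'
        · rw [e']; exact e
        · exact h.tan_trans hCB hEB hFB e e' hEF
  have hpos : 0 < ((B.filter (fun F => F = C ∨ F ∩ C = {x})).filter
      (fun F => (D ∩ F).card = 1)).card := by
    by_contra hno
    have hempty : (B.filter (fun F => F = C ∨ F ∩ C = {x})).filter
        (fun F => (D ∩ F).card = 1) = ∅ := by
      rw [← Finset.card_eq_zero]; omega
    obtain ⟨y, hyC, hyx⟩ : ∃ y ∈ C, y ≠ x :=
      Finset.exists_mem_ne (by rw [h.card_circle C hCB]; omega) x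
    have hcc := h.class_card hR ⟨C, hC⟩ hRB hyx.symm
    have htc := h.touch_card hDB hxD
    have key : ∀ E : Finset P, E ∈ B → x ∈ E →
        ∃ G, G ∈ thr B x y ∧ (G = E ∨ G ∩ E = {x}) := by
      intro E hE hxE
      by_cases hyE : y ∈ E
      · exact ⟨E, Finset.mem_filter.2 ⟨hE, hxE, hyE⟩, Or.inl rfl⟩
      · obtain ⟨G, ⟨hG, hyG, hGE⟩, _⟩ := h.tangent hE hxE hyE
        have hxG : x ∈ G := by
          have : x ∈ G ∩ E := by rw [hGE]; exact Finset.mem_singleton_self x
          exact (Finset.mem_inter.1 this).1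
        exact ⟨G, Finset.mem_filter.2 ⟨hG, hxG, hyG⟩, Or.inr hGE⟩
    let f : Finset P → Finset P := fun E => if hE : E ∈ B ∧ x ∈ E then
      (key E hE.1 hE.2).choose else E
    have hf : ∀ E, E ∈ B → x ∈ E → f E ∈ thr B x y ∧ (f E = E ∨ f E ∩ E = {x}) := by
      intro E hE hxE
      have : f E = (key E hE hxE).choose := dif_pos ⟨hE, hxE⟩
      rw [this]
      exact (key E hE hxE).choose_spec
    have hCQ : C ∈ (thr B x y).filter (fun G => G ∈ R) :=
      Finset.mem_filter.2 ⟨Finset.mem_filter.2 ⟨hCB, hxC, hyC⟩, hC⟩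
    have hbound : (B.filter (fun F => x ∈ F ∧ (F ∩ D).card = 1)).card
        ≤ 2 * (((thr B x y).filter (fun G => G ∈ R)).erase C).card := by
      apply Finset.card_le_mul_card_image_of_maps_to (f := f)
      · intro E hE
        obtain ⟨hEB, hxE, hED⟩ := Finset.mem_filter.1 hE
        have hER : E ∈ R := hR.2 D hD E hEB (by rw [Finset.inter_comm]; exact hED)
        obtain ⟨h1, h2⟩ := hf E hEB hxE
        refine Finset.mem_erase.2 ⟨?_, Finset.mem_filter.2 ⟨h1, ?_⟩⟩
        · intro e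
          have : E ∈ (B.filter (fun F => F = C ∨ F ∩ C = {x})).filter
              (fun F => (D ∩ F).card = 1) := by
            refine Finset.mem_filter.2 ⟨Finset.mem_filter.2 ⟨hEB, ?_⟩, ?_⟩
            · rw [e] at h2
              rcases h2 with e' | e'
              · exact Or.inl e'.symm
              · exact Or.inr (by rw [Finset.inter_comm]; exact e')
            · rw [Finset.inter_comm]; exact hED
          rw [hempty] at this
          exact absurd this (Finset.notMem_empty E)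
        · rcases h2 with e | e
          · rw [e]; exact hER
          · exact hR.2 E hER _ (Finset.mem_filter.1 h1).1
              (by rw [Finset.inter_comm, e]; exact Finset.card_singleton x)
      · intro G hG
        have hG' := (Finset.mem_erase.1 hG).2
        apply h.pencil_touch_le hDB hxD
        · intro E hE
          obtain ⟨hE1, _⟩ := Finset.mem_filter.1 hE
          obtain ⟨hEB, hxE, hED⟩ := Finset.mem_filter.1 hE1
          exact ⟨hEB, hxE, hED⟩
        · intro E hE F hF hEF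
          obtain ⟨hE1, hE2⟩ := Finset.mem_filter.1 hE
          obtain ⟨hEB, hxE, hED⟩ := Finset.mem_filter.1 hE1
          obtain ⟨hF1, hF2⟩ := Finset.mem_filter.1 hF
          obtain ⟨hFB, hxF, hFD⟩ := Finset.mem_filter.1 hF1
          have hGB : G ∈ B := (Finset.mem_filter.1 (Finset.mem_filter.1 hG').1).1
          have e1 := (hf E hEB hxE).2
          have e2 := (hf F hFB hxF).2
          rw [hE2] at e1
          rw [hF2] at e2
          rcases e1 with e1 | e1
          · rcases e2 with e2 | e2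
            · exact absurd (e1.symm.trans e2) hEF
            · rw [← e1]; exact e2
          · rcases e2 with e2 | e2
            · rw [← e2, Finset.inter_comm]; exact e1
            · rw [Finset.inter_comm] at e1 e2
              exact h.tan_trans hGB hEB hFB e1 e2 hEF
    rw [Finset.card_erase_of_mem hCQ] at hbound
    omega
  rcases hpar with ⟨k, hk⟩
  omega

/-- circles tangent to `C` at `x` and tangent to `D`, for circles `C`, `D` which are not tangent -/
theorem tans_at_le {C D : Finset P} (hC : C ∈ B) (hD : D ∈ B) {x : P} (hxC : x ∈ C) (hxD : x ∉ D) :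
    ((tans B C D).filter (fun E => x ∈ E)).card ≤ 2 := by
  have hE' : ∀ E ∈ (tans B C D).filter (fun E => x ∈ E), E ∈ B ∧ E ∩ C = {x} ∧ (E ∩ D).card = 1 := by
    intro E hE
    obtain ⟨h1, h2⟩ := Finset.mem_filter.1 hE
    obtain ⟨hEB, h3, h4⟩ := Finset.mem_filter.1 h1
    obtain ⟨a, ha⟩ := Finset.card_eq_one.1 h3
    have : x ∈ E ∩ C := Finset.mem_inter.2 ⟨h2, hxC⟩
    rw [ha] at this
    rw [← Finset.mem_singleton.1 this] at ha
    exact ⟨hEB, ha, h4⟩
  apply h.pencil_touch_le hD hxD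
  · intro E hE
    obtain ⟨h1, _, h3⟩ := hE' E hE
    exact ⟨h1, (Finset.mem_filter.1 hE).2, h3⟩
  · intro E hE F hF hEF
    obtain ⟨h1, h2, _⟩ := hE' E hE
    obtain ⟨h4, h5, _⟩ := hE' F hF
    exact h.tan_trans hC h1 h4 h2 h5 hEF

/-- a circle tangent to `C` and `D`, which are not tangent to each other, touches `C` at a point off
`D` -/
theorem tans_foot {C D E : Finset P} (hC : C ∈ B) (hD : D ∈ B) (hne : C ≠ D)
    (hCD : (C ∩ D).card ≠ 1) (hE : E ∈ tans B C D) : ((C \ D) ∩ E).card = 1 := by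
  obtain ⟨hEB, h1, h2⟩ := Finset.mem_filter.1 hE
  obtain ⟨a, ha⟩ := Finset.card_eq_one.1 h1
  have haE : a ∈ E ∩ C := by rw [ha]; exact Finset.mem_singleton_self a
  obtain ⟨haE, haC⟩ := Finset.mem_inter.1 haE
  have haD : a ∉ D := by
    intro haD
    obtain ⟨b, hb⟩ := Finset.card_eq_one.1 h2
    have : a ∈ E ∩ D := Finset.mem_inter.2 ⟨haE, haD⟩
    rw [hb] at this
    rw [← Finset.mem_singleton.1 this] at hb
    have h3 := h.tan_trans hEB hC hD (by rw [Finset.inter_comm]; exact ha)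
      (by rw [Finset.inter_comm]; exact hb) hne
    exact hCD (by rw [h3]; exact Finset.card_singleton a)
  rw [Finset.card_eq_one]
  refine ⟨a, ?_⟩
  ext y
  simp only [Finset.mem_inter, Finset.mem_sdiff, Finset.mem_singleton]
  constructor
  · rintro ⟨⟨hyC, _⟩, hyE⟩
    have : y ∈ E ∩ C := Finset.mem_inter.2 ⟨hyE, hyC⟩
    rw [ha] at this
    exact Finset.mem_singleton.1 this
  · rintro rfl; exact ⟨⟨haC, haD⟩, haE⟩

theorem sdiff_card {C D : Finset P} (hC : C ∈ B) : (C \ D).card + (C ∩ D).card = n + 1 := by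
  rw [← h.card_circle C hC]
  exact Finset.card_sdiff_add_card_inter C D

/-- two circles of one tangency class which are not tangent have `2 |C \ D|` common tangent circles -/
theorem tans_card {R : Finset (Finset P)} (hR : TanClosed B R) (hRB : R ≠ B) {C D : Finset P}
    (hC : C ∈ R) (hD : D ∈ R) (hne : C ≠ D) (hCD : (C ∩ D).card ≠ 1) :
    (tans B C D).card + 2 * (C ∩ D).card = 2 * (n + 1) := by
  have hCB := hR.1 hC
  have hDB := hR.1 hD
  have h1 : ∑ E ∈ tans B C D, ((C \ D) ∩ E).card = (C \ D).card * 2 := by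
    apply Finset.sum_card_inter
    intro x hx
    obtain ⟨hxC, hxD⟩ := Finset.mem_sdiff.1 hx
    rw [tans_at_eq hCD hxC]
    exact h.pencil_two hR hRB hC hD hxC hxD
  rw [Finset.sum_congr rfl fun E hE => h.tans_foot hCB hDB hne hCD hE, Finset.sum_const,
    smul_eq_mul, mul_one] at h1
  have h2 := h.sdiff_card (D := D) hCB
  omega

/-- two tangent circles have `2 n - 2` common tangent circles -/
theorem tans_card_tangent {C D : Finset P} (hC : C ∈ B) (hD : D ∈ B) (hCD : (C ∩ D).card = 1) :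
    (tans B C D).card + 2 = 2 * n := by
  classical
  obtain ⟨z, hz⟩ := Finset.card_eq_one.1 hCD
  have hzz : z ∈ C ∩ D := by rw [hz]; exact Finset.mem_singleton_self z
  obtain ⟨hzC, hzD⟩ := Finset.mem_inter.1 hzz
  have hne : C ≠ D := h.ne_of_inter_singleton hC hz
  -- those through `z`
  have h1 : ((tans B C D).filter (fun E => z ∈ E)).card + 2 = n := by
    have h2 := h.pencil_card hC hzC
    have h3 : (tans B C D).filter (fun E => z ∈ E)
        = (B.filter (fun E => E ∩ C = {z})).erase D := by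
      ext E
      simp only [tans, Finset.mem_filter, Finset.mem_erase]
      constructor
      · rintro ⟨⟨hEB, h4, h5⟩, hzE⟩
        refine ⟨?_, hEB, ?_⟩
        · rintro rfl
          rw [Finset.inter_self, h.card_circle E hD] at h5
          have := h.two_le
          omega
        · obtain ⟨a, ha⟩ := Finset.card_eq_one.1 h4
          have : z ∈ E ∩ C := Finset.mem_inter.2 ⟨hzE, hzC⟩
          rw [ha] at this
          rw [← Finset.mem_singleton.1 this] at ha
          exact ha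
      · rintro ⟨hED, hEB, hEC⟩
        have hzE : z ∈ E ∩ C := by rw [hEC]; exact Finset.mem_singleton_self z
        have h6 := h.tan_trans hC hEB hD hEC (by rw [Finset.inter_comm]; exact hz) hED
        exact ⟨⟨hEB, by rw [hEC]; exact Finset.card_singleton z,
          by rw [h6]; exact Finset.card_singleton z⟩, (Finset.mem_inter.1 hzE).1⟩
    have h4 : D ∈ B.filter (fun E => E ∩ C = {z}) :=
      Finset.mem_filter.2 ⟨hD, by rw [Finset.inter_comm]; exact hz⟩
    have h5 : 0 < (B.filter (fun E => E ∩ C = {z})).card := Finset.card_pos.2 ⟨D, h4⟩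
    rw [h3, Finset.card_erase_of_mem h4]
    omega
  -- those off `z`
  have h2 : ((tans B C D).filter (fun E => z ∉ E)).card = n := by
    have h3 : ∑ E ∈ (tans B C D).filter (fun E => z ∉ E), ((C.erase z) ∩ E).card
        = (C.erase z).card * 1 := by
      apply Finset.sum_card_inter
      intro x hx
      obtain ⟨hxz, hxC⟩ := Finset.mem_erase.1 hx
      have hxD : x ∉ D := by
        intro hxD
        have : x ∈ C ∩ D := Finset.mem_inter.2 ⟨hxC, hxD⟩
        rw [hz] at this
        exact hxz (Finset.mem_singleton.1 this)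
      apply card_filter_one
      obtain ⟨F, ⟨hFB, hxF, hFC, hFD⟩, hu⟩ := h.qvist hD hC hxC hxD hz
      have hzF : z ∉ F := by
        intro hzF
        have : z ∈ F ∩ C := Finset.mem_inter.2 ⟨hzF, hzC⟩
        rw [hFC] at this
        exact hxz (Finset.mem_singleton.1 this).symm
      refine ⟨F, ⟨Finset.mem_filter.2 ⟨Finset.mem_filter.2 ⟨hFB, by
        rw [hFC]; exact Finset.card_singleton x, hFD⟩, hzF⟩, hxF⟩, ?_⟩
      rintro G ⟨hG, hxG⟩
      obtain ⟨hG1, _⟩ := Finset.mem_filter.1 hG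
      obtain ⟨hGB, hG2, hG3⟩ := Finset.mem_filter.1 hG1
      refine hu G ⟨hGB, hxG, ?_, hG3⟩
      obtain ⟨a, ha⟩ := Finset.card_eq_one.1 hG2
      have : x ∈ G ∩ C := Finset.mem_inter.2 ⟨hxG, hxC⟩
      rw [ha] at this
      rw [← Finset.mem_singleton.1 this] at ha
      exact ha
    have h4 : ∀ E ∈ (tans B C D).filter (fun E => z ∉ E), ((C.erase z) ∩ E).card = 1 := by
      intro E hE
      obtain ⟨hE1, hzE⟩ := Finset.mem_filter.1 hE
      obtain ⟨hEB, hE2, _⟩ := Finset.mem_filter.1 hE1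
      rw [← hE2]
      congr 1
      ext y
      simp only [Finset.mem_inter, Finset.mem_erase]
      constructor
      · rintro ⟨⟨_, e1⟩, e2⟩; exact ⟨e2, e1⟩
      · rintro ⟨e1, e2⟩; exact ⟨⟨fun e => hzE (e ▸ e1), e2⟩, e1⟩
    rw [Finset.sum_congr rfl h4, Finset.sum_const, smul_eq_mul, mul_one, mul_one,
      Finset.card_erase_of_mem hzC, h.card_circle C hC] at h3
    exact h3
  have h3 := Finset.card_filter_add_card_filter_not (s := tans B C D) (fun E => z ∈ E)
  omega

end InvPlane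

/-! ### common perpendiculars -/

open Classical in
/-- the circles which meet `C` and `D` and are perpendicular to both -/
noncomputable def perpF {P : Type u} [DecidableEq P] (B : Finset (Finset P)) (C D : Finset P) :
    Finset (Finset P) :=
  B.filter fun X => (X ∩ C).Nonempty ∧ (X ∩ D).Nonempty ∧ perp B X C ∧ perp B X D

omit [Fintype P] in
theorem mem_perpF {B : Finset (Finset P)} {C D X : Finset P} :
    X ∈ perpF B C D ↔ X ∈ B ∧ (X ∩ C).Nonempty ∧ (X ∩ D).Nonempty ∧ perp B X C ∧ perp B X D := by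
  simp only [perpF, Finset.mem_filter]

omit [Fintype P] in
theorem sum_swap (S : Finset P) (T : Finset (Finset P)) :
    ∑ X ∈ T, (S ∩ X).card = ∑ x ∈ S, (T.filter (fun X => x ∈ X)).card := by
  simp_rw [← Finset.filter_mem_eq_inter, Finset.card_eq_sum_ones, Finset.sum_filter]
  exact Finset.sum_comm

namespace InvPlane

variable {n : ℕ} {B : Finset (Finset P)} (h : InvPlane n B)

include h

/-- a common perpendicular of two circles which are not tangent contains no common point of them -/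
theorem common_off {C D X : Finset P} (hC : C ∈ B) (hD : D ∈ B) (hX : X ∈ B) (hne : C ≠ D)
    (hCD : (C ∩ D).card ≠ 1) (hXC : perp B X C) (hXD : perp B X D) {z : P} (hzX : z ∈ X)
    (hzC : z ∈ C) : z ∉ D := by
  intro hzD
  obtain ⟨s, hs, hsz, e⟩ := h.exists_locus hX hC hzX hzC hXC
  obtain ⟨t, ht, htz, e'⟩ := h.exists_locus hX hD hzX hzD hXD
  by_cases hst : s = t
  · exact hne (by rw [e, e', hst])
  · have h1 := h.locus_inter hX hzX hs ht hsz htz hst
    rw [← e, ← e'] at h1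
    exact hCD (by rw [h1]; exact Finset.card_singleton z)

theorem tan_of_perp (hL : LociAreCircles B) {C D X : Finset P} (hC : C ∈ B) (hD : D ∈ B)
    (hX : X ∈ B) (hXC : perp B X C) (hXD : perp B X D) {x v : P} (hxX : x ∈ X) (hxC : x ∈ C)
    (hvX : v ∈ X) (hvD : v ∈ D) (hxD : x ∉ D) (hvC : v ∉ C) :
    ∃ E ∈ B, E ∩ C = {x} ∧ E ∩ D = {v} := by
  have hvx : v ≠ x := fun e => hxD (e ▸ hvD)
  obtain ⟨s, hs, hsx, e⟩ := h.exists_locus hX hC hxX hxC hXC
  obtain ⟨t, ht, htv, e'⟩ := h.exists_locus hX hD hvX hvD hXD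
  have hsC : s ∈ C := by rw [e]; exact right_mem_locus B X x s
  have htD : t ∈ D := by rw [e']; exact right_mem_locus B X v t
  refine ⟨locus B X x v, hL X hX x hxX v hvX hvx, ?_, ?_⟩
  · have h1 := h.locus_inter hX hxX hvX hs hvx hsx (fun e2 => hvC (e2 ▸ hsC))
    rwa [← e] at h1
  · rw [locus_symm B X x v]
    have h1 := h.locus_inter hX hvX hxX ht hvx.symm htv (fun e2 => hxD (e2 ▸ htD))
    rwa [← e'] at h1

theorem perp_of_tans (hL : LociAreCircles B) {C D E1 E2 : Finset P} (hC : C ∈ B) (hD : D ∈ B)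
    (hE1 : E1 ∈ B) (hE2 : E2 ∈ B) {x v1 v2 : P} (hxD : x ∉ D) (h1C : E1 ∩ C = {x})
    (h2C : E2 ∩ C = {x}) (h1D : E1 ∩ D = {v1}) (h2D : E2 ∩ D = {v2}) (hne : E1 ≠ E2) :
    ∃ X ∈ B, x ∈ X ∧ v1 ∈ X ∧ perp B X C ∧ perp B X D := by
  have hx1 : x ∈ E1 := by
    have : x ∈ E1 ∩ C := by rw [h1C]; exact Finset.mem_singleton_self x
    exact (Finset.mem_inter.1 this).1
  have hx2 : x ∈ E2 := by
    have : x ∈ E2 ∩ C := by rw [h2C]; exact Finset.mem_singleton_self x
    exact (Finset.mem_inter.1 this).1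
  have hv1 : v1 ∈ D := by
    have : v1 ∈ E1 ∩ D := by rw [h1D]; exact Finset.mem_singleton_self v1
    exact (Finset.mem_inter.1 this).2
  have hv2 : v2 ∈ D := by
    have : v2 ∈ E2 ∩ D := by rw [h2D]; exact Finset.mem_singleton_self v2
    exact (Finset.mem_inter.1 this).2
  have hv : v1 ≠ v2 := by
    rintro rfl
    exact hne (h.tangent_unique hD hv1 hxD hE1 hx1 h1D hE2 hx2 h2D)
  have hX := hL D hD v1 hv1 v2 hv2 hv.symm
  have hxX : x ∈ locus B D v1 v2 := mem_locus.2 (Or.inr (Or.inr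
    ((h.mem_loc_iff hD hv1 hv2 hxD hE1 hx1 h1D hE2 hx2 h2D).2
      (h.tan_trans hC hE1 hE2 h1C h2C hne))))
  have hv1X := left_mem_locus B D v1 v2
  have hDX := h.perp_locus hD hv1 hv2 hv hX
  have hXD := h.perp_symm hL hD hX ⟨v1, Finset.mem_inter.2 ⟨hv1, hv1X⟩⟩ hDX
  have hXE := h.perp_tangent hL hD hE1 hX (by rw [Finset.inter_comm]; exact h1D) hv1X hXD
  have hXC := h.perp_tangent hL hE1 hC hX h1C hxX hXE
  exact ⟨_, hX, hxX, hv1X, hXC, hXD⟩

/-- two common perpendiculars through a point of `C` off `D` are equal -/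
theorem perpF_unique (hL : LociAreCircles B) {C D X Y : Finset P} (hC : C ∈ B) (hD : D ∈ B)
    (hne : C ≠ D) (hCD : (C ∩ D).card ≠ 1) (hX : X ∈ perpF B C D) (hY : Y ∈ perpF B C D) {x : P}
    (hxX : x ∈ X) (hxY : x ∈ Y) (hxC : x ∈ C) : X = Y := by
  obtain ⟨hXB, _, hXD', hXC, hXD⟩ := mem_perpF.1 hX
  obtain ⟨hYB, _, hYD', hYC, hYD⟩ := mem_perpF.1 hY
  have hxD := h.common_off hC hD hXB hne hCD hXC hXD hxX hxC
  have hT := h.tans_at_le hC hD hxC hxD
  -- the tangent circles given by a common perpendicular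
  have key : ∀ Z ∈ B, x ∈ Z → perp B Z C → perp B Z D → ∀ v ∈ Z, v ∈ D →
      ∃ E ∈ (tans B C D).filter (fun E => x ∈ E), E ∩ D = {v} := by
    intro Z hZ hxZ hZC hZD v hvZ hvD
    have hvC : v ∉ C := fun hvC => h.common_off hC hD hZ hne hCD hZC hZD hvZ hvC hvD
    obtain ⟨E, hE, h1, h2⟩ := h.tan_of_perp hL hC hD hZ hZC hZD hxZ hxC hvZ hvD hxD hvC
    have : x ∈ E ∩ C := by rw [h1]; exact Finset.mem_singleton_self x
    exact ⟨E, Finset.mem_filter.2 ⟨Finset.mem_filter.2 ⟨hE, by rw [h1]; exact Finset.card_singleton x,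
      by rw [h2]; exact Finset.card_singleton v⟩, (Finset.mem_inter.1 this).1⟩, h2⟩
  obtain ⟨v, v', hvv, hXv⟩ := Finset.card_eq_two.1 (h.perp_card hXD' hXD)
  obtain ⟨w, w', hww, hYw⟩ := Finset.card_eq_two.1 (h.perp_card hYD' hYD)
  have hv : v ∈ X ∩ D := by rw [hXv]; exact Finset.mem_insert_self v _
  have hv' : v' ∈ X ∩ D := by
    rw [hXv]; exact Finset.mem_insert_of_mem (Finset.mem_singleton_self v')
  have hw : w ∈ Y ∩ D := by rw [hYw]; exact Finset.mem_insert_self w _
  have hw' : w' ∈ Y ∩ D := by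
    rw [hYw]; exact Finset.mem_insert_of_mem (Finset.mem_singleton_self w')
  obtain ⟨hvX, hvD⟩ := Finset.mem_inter.1 hv
  obtain ⟨hvX', hvD'⟩ := Finset.mem_inter.1 hv'
  obtain ⟨hwY, hwD⟩ := Finset.mem_inter.1 hw
  obtain ⟨hwY', hwD'⟩ := Finset.mem_inter.1 hw'
  obtain ⟨E, hE, hEv⟩ := key X hXB hxX hXC hXD v hvX hvD
  obtain ⟨E', hE', hEv'⟩ := key X hXB hxX hXC hXD v' hvX' hvD'
  have hEE : E ≠ E' := by
    rintro rfl
    rw [hEv] at hEv'
    exact hvv (Finset.singleton_injective hEv')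
  have sub : ∀ u ∈ Y, u ∈ D → u ∈ X := by
    intro u huY huD
    obtain ⟨G, hG, hGu⟩ := key Y hYB hxY hYC hYD u huY huD
    by_cases h1 : G = E
    · rw [h1, hEv] at hGu
      rw [← Finset.singleton_injective hGu]; exact hvX
    · by_cases h2 : G = E'
      · rw [h2, hEv'] at hGu
        rw [← Finset.singleton_injective hGu]; exact hvX'
      · exfalso
        have : 2 < ((tans B C D).filter (fun E => x ∈ E)).card :=
          Finset.two_lt_card.2 ⟨G, hG, E, hE, E', hE', h1, h2, hEE⟩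
        omega
  have hwx : x ≠ w := fun e => hxD (e ▸ hwD)
  have hwx' : x ≠ w' := fun e => hxD (e ▸ hwD')
  exact h.eq_of_three hXB hYB hwx hwx' hww hxX (sub w hwY hwD) (sub w' hwY' hwD') hxY hwY hwY'

/-- through a point of `C` off `D` there are twice as many common tangent circles as common
perpendiculars -/
theorem perp_at (hL : LociAreCircles B) {C D : Finset P} (hC : C ∈ B) (hD : D ∈ B) (hne : C ≠ D)
    (hCD : (C ∩ D).card ≠ 1) {x : P} (hxC : x ∈ C) (hxD : x ∉ D) :
    ((tans B C D).filter (fun E => x ∈ E)).card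
      = 2 * ((perpF B C D).filter (fun X => x ∈ X)).card := by
  have hle := h.tans_at_le hC hD hxC hxD
  have hpar : Even ((tans B C D).filter (fun E => x ∈ E)).card := by
    rw [tans_at_eq hCD hxC]
    exact h.parity_pencil hD hC hxC hxD
  have huniq : ((perpF B C D).filter (fun X => x ∈ X)).card ≤ 1 := by
    rw [Finset.card_le_one]
    intro X hX Y hY
    obtain ⟨hX1, hX2⟩ := Finset.mem_filter.1 hX
    obtain ⟨hY1, hY2⟩ := Finset.mem_filter.1 hY
    exact h.perpF_unique hL hC hD hne hCD hX1 hY1 hX2 hY2 hxC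
  have hiff : 0 < ((tans B C D).filter (fun E => x ∈ E)).card ↔
      0 < ((perpF B C D).filter (fun X => x ∈ X)).card := by
    constructor
    · intro h0
      have h1 : 1 < ((tans B C D).filter (fun E => x ∈ E)).card := by
        rcases hpar with ⟨k, hk⟩
        omega
      obtain ⟨E1, hE1, E2, hE2, hEE⟩ := Finset.one_lt_card.1 h1
      have unp : ∀ E ∈ (tans B C D).filter (fun E => x ∈ E),
          E ∈ B ∧ E ∩ C = {x} ∧ ∃ v, E ∩ D = {v} := by
        intro E hE
        obtain ⟨h2, hxE⟩ := Finset.mem_filter.1 hE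
        obtain ⟨hEB, h3, h4⟩ := Finset.mem_filter.1 h2
        obtain ⟨a, ha⟩ := Finset.card_eq_one.1 h3
        have : x ∈ E ∩ C := Finset.mem_inter.2 ⟨hxE, hxC⟩
        rw [ha] at this
        rw [← Finset.mem_singleton.1 this] at ha
        exact ⟨hEB, ha, Finset.card_eq_one.1 h4⟩
      obtain ⟨h1B, h1C, v1, h1D⟩ := unp E1 hE1
      obtain ⟨h2B, h2C, v2, h2D⟩ := unp E2 hE2
      obtain ⟨X, hX, hxX, hvX, hXC, hXD⟩ := h.perp_of_tans hL hC hD h1B h2B hxD h1C h2C h1D h2D hEE
      have hv1 : v1 ∈ E1 ∩ D := by rw [h1D]; exact Finset.mem_singleton_self v1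
      exact Finset.card_pos.2 ⟨X, Finset.mem_filter.2 ⟨mem_perpF.2 ⟨hX,
        ⟨x, Finset.mem_inter.2 ⟨hxX, hxC⟩⟩, ⟨v1, Finset.mem_inter.2 ⟨hvX, (Finset.mem_inter.1 hv1).2⟩⟩,
        hXC, hXD⟩, hxX⟩⟩
    · intro h0
      obtain ⟨X, hX⟩ := Finset.card_pos.1 h0
      obtain ⟨hX1, hxX⟩ := Finset.mem_filter.1 hX
      obtain ⟨hXB, _, ⟨v, hv⟩, hXC, hXD⟩ := mem_perpF.1 hX1
      obtain ⟨hvX, hvD⟩ := Finset.mem_inter.1 hv
      have hvC : v ∉ C := fun hvC => h.common_off hC hD hXB hne hCD hXC hXD hvX hvC hvD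
      obtain ⟨E, hE, h1, h2⟩ := h.tan_of_perp hL hC hD hXB hXC hXD hxX hxC hvX hvD hxD hvC
      have : x ∈ E ∩ C := by rw [h1]; exact Finset.mem_singleton_self x
      exact Finset.card_pos.2 ⟨E, Finset.mem_filter.2 ⟨Finset.mem_filter.2 ⟨hE,
        by rw [h1]; exact Finset.card_singleton x, by rw [h2]; exact Finset.card_singleton v⟩,
        (Finset.mem_inter.1 this).1⟩⟩
  rcases hpar with ⟨k, hk⟩
  omega

/-- two circles which are not tangent have four times as many common tangent circles as common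
perpendiculars -/
theorem tans_eq_perp (hL : LociAreCircles B) {C D : Finset P} (hC : C ∈ B) (hD : D ∈ B)
    (hne : C ≠ D) (hCD : (C ∩ D).card ≠ 1) :
    (tans B C D).card = 4 * (perpF B C D).card := by
  have h1 := sum_swap (C \ D) (tans B C D)
  have h2 := sum_swap (C \ D) (perpF B C D)
  rw [Finset.sum_congr rfl fun E hE => h.tans_foot hC hD hne hCD hE, Finset.sum_const,
    smul_eq_mul, mul_one] at h1
  have h3 : ∀ X ∈ perpF B C D, ((C \ D) ∩ X).card = 2 := by
    intro X hX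
    obtain ⟨hXB, hXC', _, hXC, hXD⟩ := mem_perpF.1 hX
    rw [← h.perp_card hXC' hXC]
    congr 1
    ext y
    simp only [Finset.mem_inter, Finset.mem_sdiff]
    constructor
    · rintro ⟨⟨e1, _⟩, e2⟩; exact ⟨e2, e1⟩
    · rintro ⟨e1, e2⟩
      exact ⟨⟨e2, h.common_off hC hD hXB hne hCD hXC hXD e1 e2⟩, e1⟩
  rw [Finset.sum_congr rfl h3, Finset.sum_const, smul_eq_mul] at h2
  have h4 : ∑ x ∈ C \ D, ((tans B C D).filter (fun E => x ∈ E)).card
      = ∑ x ∈ C \ D, 2 * ((perpF B C D).filter (fun X => x ∈ X)).card := by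
    apply Finset.sum_congr rfl
    intro x hx
    obtain ⟨hxC, hxD⟩ := Finset.mem_sdiff.1 hx
    exact h.perp_at hL hC hD hne hCD hxC hxD
  rw [← Finset.mul_sum] at h4
  omega

/-- the contact points of a common tangent circle are on exactly one common perpendicular -/
theorem perp_of_tan (hL : LociAreCircles B) {C D E : Finset P} (hC : C ∈ B) (hD : D ∈ B)
    (hne : C ≠ D) (hCD : (C ∩ D).card ≠ 1) (hE : E ∈ B) {u v : P} (hEC : E ∩ C = {u})
    (hED : E ∩ D = {v}) : ∃! X, X ∈ perpF B C D ∧ u ∈ X ∧ v ∈ X := by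
  have hu : u ∈ E ∩ C := by rw [hEC]; exact Finset.mem_singleton_self u
  obtain ⟨huE, huC⟩ := Finset.mem_inter.1 hu
  have hv : v ∈ E ∩ D := by rw [hED]; exact Finset.mem_singleton_self v
  obtain ⟨hvE, hvD⟩ := Finset.mem_inter.1 hv
  have huD : u ∉ D := by
    intro huD
    have : u ∈ E ∩ D := Finset.mem_inter.2 ⟨huE, huD⟩
    rw [hED] at this
    have e := Finset.mem_singleton.1 this
    subst e
    have h3 := h.tan_trans hE hC hD (by rw [Finset.inter_comm]; exact hEC)
      (by rw [Finset.inter_comm]; exact hED) hne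
    exact hCD (by rw [h3]; exact Finset.card_singleton u)
  have hEin : E ∈ (tans B C D).filter (fun E => u ∈ E) :=
    Finset.mem_filter.2 ⟨Finset.mem_filter.2 ⟨hE, by rw [hEC]; exact Finset.card_singleton u,
      by rw [hED]; exact Finset.card_singleton v⟩, huE⟩
  have hpar : Even ((tans B C D).filter (fun E => u ∈ E)).card := by
    rw [tans_at_eq hCD huC]
    exact h.parity_pencil hD hC huC huD
  have h1 : 1 < ((tans B C D).filter (fun E => u ∈ E)).card := by
    have h0 := Finset.card_pos.2 ⟨E, hEin⟩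
    rcases hpar with ⟨k, hk⟩
    omega
  obtain ⟨E2, hE2, hEE⟩ := Finset.exists_mem_ne h1 E
  obtain ⟨h2, huE2⟩ := Finset.mem_filter.1 hE2
  obtain ⟨hE2B, h3, h4⟩ := Finset.mem_filter.1 h2
  obtain ⟨a, ha⟩ := Finset.card_eq_one.1 h3
  have hua : u ∈ E2 ∩ C := Finset.mem_inter.2 ⟨huE2, huC⟩
  rw [ha] at hua
  rw [← Finset.mem_singleton.1 hua] at ha
  obtain ⟨w, hw⟩ := Finset.card_eq_one.1 h4
  obtain ⟨X, hX, huX, hvX, hXC, hXD⟩ :=
    h.perp_of_tans hL hC hD hE hE2B huD hEC ha hED hw hEE.symm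
  have hXP : X ∈ perpF B C D := mem_perpF.2 ⟨hX, ⟨u, Finset.mem_inter.2 ⟨huX, huC⟩⟩,
    ⟨v, Finset.mem_inter.2 ⟨hvX, hvD⟩⟩, hXC, hXD⟩
  refine ⟨X, ⟨hXP, huX, hvX⟩, ?_⟩
  rintro Y ⟨hY, huY, _⟩
  exact h.perpF_unique hL hC hD hne hCD hY hXP huY huX huC

/-- a common perpendicular of two tangent circles contains their common point -/
theorem perp_contact (hL : LociAreCircles B) {C D X : Finset P} (hC : C ∈ B) (hD : D ∈ B) {z : P}
    (hz : C ∩ D = {z}) (hX : X ∈ perpF B C D) : z ∈ X := by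
  by_contra hzX
  obtain ⟨hXB, ⟨x, hx⟩, hXD', hXC, hXD⟩ := mem_perpF.1 hX
  obtain ⟨hxX, hxC⟩ := Finset.mem_inter.1 hx
  have off : ∀ y ∈ X, y ∈ C → y ∉ D := by
    intro y hyX hyC hyD
    have : y ∈ C ∩ D := Finset.mem_inter.2 ⟨hyC, hyD⟩
    rw [hz] at this
    exact hzX ((Finset.mem_singleton.1 this) ▸ hyX)
  have hxD := off x hxX hxC
  obtain ⟨v, v', hvv, hXv⟩ := Finset.card_eq_two.1 (h.perp_card hXD' hXD)
  have hv : v ∈ X ∩ D := by rw [hXv]; exact Finset.mem_insert_self v _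
  have hv' : v' ∈ X ∩ D := by
    rw [hXv]; exact Finset.mem_insert_of_mem (Finset.mem_singleton_self v')
  obtain ⟨hvX, hvD⟩ := Finset.mem_inter.1 hv
  obtain ⟨hvX', hvD'⟩ := Finset.mem_inter.1 hv'
  obtain ⟨E, hE, h1, h2⟩ := h.tan_of_perp hL hC hD hXB hXC hXD hxX hxC hvX hvD hxD
    (fun e => off v hvX e hvD)
  obtain ⟨E', hE', h1', h2'⟩ := h.tan_of_perp hL hC hD hXB hXC hXD hxX hxC hvX' hvD' hxD
    (fun e => off v' hvX' e hvD')
  have hEE : E ≠ E' := by
    rintro rfl
    rw [h2] at h2'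
    exact hvv (Finset.singleton_injective h2')
  have hCE : C ≠ E := (h.ne_of_inter_singleton hE h1).symm
  have hCE' : C ≠ E' := (h.ne_of_inter_singleton hE' h1').symm
  have hxE : x ∈ E := by
    have : x ∈ E ∩ C := by rw [h1]; exact Finset.mem_singleton_self x
    exact (Finset.mem_inter.1 this).1
  have hxE' : x ∈ E' := by
    have : x ∈ E' ∩ C := by rw [h1']; exact Finset.mem_singleton_self x
    exact (Finset.mem_inter.1 this).1
  have htt := h.tan_trans hC hE hE' h1 h1' hEE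
  have hq := (h.qvist hD hC hxC hxD hz).unique
    ⟨hE, hxE, h1, by rw [h2]; exact Finset.card_singleton v⟩
    ⟨hE', hxE', h1', by rw [h2']; exact Finset.card_singleton v'⟩
  exact hEE hq

/-- under (O2) two tangent circles have exactly `n` common perpendiculars -/
theorem perpF_card_tangent (hL : LociAreCircles B) {C D : Finset P} (hC : C ∈ B) (hD : D ∈ B)
    {z : P} (hz : C ∩ D = {z}) : (perpF B C D).card = n := by
  classical
  have hzz : z ∈ C ∩ D := by rw [hz]; exact Finset.mem_singleton_self z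
  obtain ⟨hzC, hzD⟩ := Finset.mem_inter.1 hzz
  have himg : perpF B C D = (C.erase z).image (fun s => locus B C z s) := by
    ext X
    rw [Finset.mem_image]
    constructor
    · intro hX
      have hzX := h.perp_contact hL hC hD hz hX
      obtain ⟨hXB, _, _, hXC, _⟩ := mem_perpF.1 hX
      have h1 := h.perp_symm hL hXB hC ⟨z, Finset.mem_inter.2 ⟨hzX, hzC⟩⟩ hXC
      obtain ⟨s, hs, hsz, e⟩ := h.exists_locus hC hXB hzC hzX h1
      exact ⟨s, Finset.mem_erase.2 ⟨hsz, hs⟩, e.symm⟩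
    · rintro ⟨s, hs, rfl⟩
      obtain ⟨hsz, hsC⟩ := Finset.mem_erase.1 hs
      have hX := hL C hC z hzC s hsC hsz
      have hzX := left_mem_locus B C z s
      have h1 := h.perp_locus hC hzC hsC hsz.symm hX
      have h2 := h.perp_symm hL hC hX ⟨z, Finset.mem_inter.2 ⟨hzC, hzX⟩⟩ h1
      exact mem_perpF.2 ⟨hX, ⟨z, Finset.mem_inter.2 ⟨hzX, hzC⟩⟩, ⟨z, Finset.mem_inter.2 ⟨hzX, hzD⟩⟩,
        h2, h.perp_tangent hL hC hD hX hz hzX h2⟩
  rw [himg, Finset.card_image_of_injOn, Finset.card_erase_of_mem hzC, h.card_circle C hC]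
  · rfl
  · intro a ha b hb hab
    obtain ⟨haz, haC⟩ := Finset.mem_erase.1 (Finset.mem_coe.1 ha)
    obtain ⟨hbz, hbC⟩ := Finset.mem_erase.1 (Finset.mem_coe.1 hb)
    have hab' : locus B C z a = locus B C z b := hab
    have : a ∈ locus B C z b := by rw [← hab']; exact right_mem_locus B C z a
    rcases mem_of_mem_locus haC this with e | e
    · exact absurd e haz
    · exact e

end InvPlane

/-! ### perpendicular circles and tangency classes -/

namespace InvPlane

variable {n : ℕ} {B : Finset (Finset P)} (h : InvPlane n B)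

include h

/-- the circles which meet `C` and are perpendicular to `C` are in one tangency class -/
theorem perp_conn (hL : LociAreCircles B) {S : Finset (Finset P)} (hS : TanClosed B S)
    {C X Y : Finset P} (hC : C ∈ B) (hX : X ∈ B) (hY : Y ∈ B) (hXC : (X ∩ C).Nonempty)
    (hYC : (Y ∩ C).Nonempty) (h1 : perp B X C) (h2 : perp B Y C) : X ∈ S ↔ Y ∈ S := by
  -- loci of `C` with a common point
  have step : ∀ a ∈ C, ∀ b ∈ C, ∀ b' ∈ C, b ≠ a → b' ≠ a →
      locus B C a b ∈ S → locus B C a b' ∈ S := by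
    intro a ha b hb b' hb' hba hb'a hmem
    by_cases e : b = b'
    · rw [← e]; exact hmem
    · exact hS.2 _ hmem _ (hL C hC a ha b' hb' hb'a)
        (by rw [h.locus_inter hC ha hb hb' hba hb'a e]; exact Finset.card_singleton a)
  have main : ∀ a ∈ C, ∀ a' ∈ C, ∀ b ∈ C, ∀ b' ∈ C, a' ≠ a → b' ≠ b →
      locus B C a a' ∈ S → locus B C b b' ∈ S := by
    intro a ha a' ha' b hb b' hb' haa hbb hmem
    by_cases e : a = b
    · subst e
      exact step a ha a' ha' b' hb' haa hbb hmem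
    · have h3 := step a ha a' ha' b hb haa (Ne.symm e) hmem
      rw [locus_symm] at h3
      exact step b hb a ha b' hb' e hbb h3
  obtain ⟨a, ha⟩ := hXC
  obtain ⟨b, hb⟩ := hYC
  obtain ⟨haX, haC⟩ := Finset.mem_inter.1 ha
  obtain ⟨hbY, hbC⟩ := Finset.mem_inter.1 hb
  have h1' := h.perp_symm hL hX hC ⟨a, ha⟩ h1
  have h2' := h.perp_symm hL hY hC ⟨b, hb⟩ h2
  obtain ⟨a', ha', haa, e1⟩ := h.exists_locus hC hX haC haX h1'
  obtain ⟨b', hb', hbb, e2⟩ := h.exists_locus hC hY hbC hbY h2'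
  rw [e1, e2]
  exact ⟨main a haC a' ha' b hbC b' hb' haa hbb, main b hbC b' hb' a haC a' ha' hbb haa⟩

/-- some circle meets `C` and is perpendicular to `C` -/
theorem exists_perp (hL : LociAreCircles B) {C : Finset P} (hC : C ∈ B) {z : P} (hz : z ∈ C) :
    ∃ X ∈ B, z ∈ X ∧ perp B X C := by
  obtain ⟨s, hs, hsz⟩ : ∃ s ∈ C, s ≠ z :=
    Finset.exists_mem_ne (by rw [h.card_circle C hC]; have := h.three_le; omega) z
  have hX := hL C hC z hz s hs hsz
  have hzX := left_mem_locus B C z s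
  exact ⟨_, hX, hzX, h.perp_symm hL hC hX ⟨z, Finset.mem_inter.2 ⟨hz, hzX⟩⟩
    (h.perp_locus hC hz hs hsz.symm hX)⟩

/-- if `C` and `C'` are tangent, the circles perpendicular to `C` and those perpendicular to `C'` are in
one class -/
theorem perp_conn_tangent (hL : LociAreCircles B) {S : Finset (Finset P)} (hS : TanClosed B S)
    {C C' X X' : Finset P} (hC : C ∈ B) (hC' : C' ∈ B) (hCC : (C ∩ C').card = 1) (hX : X ∈ B)
    (hX' : X' ∈ B) (hXC : (X ∩ C).Nonempty) (hXC' : (X' ∩ C').Nonempty) (h1 : perp B X C)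
    (h2 : perp B X' C') : X ∈ S ↔ X' ∈ S := by
  obtain ⟨z, hz⟩ := Finset.card_eq_one.1 hCC
  have hzz : z ∈ C ∩ C' := by rw [hz]; exact Finset.mem_singleton_self z
  obtain ⟨hzC, hzC'⟩ := Finset.mem_inter.1 hzz
  obtain ⟨Y, hY, hzY, hYC⟩ := h.exists_perp hL hC hzC
  have hYC' := h.perp_tangent hL hC hC' hY hz hzY hYC
  exact (h.perp_conn hL hS hC hX hY hXC ⟨z, Finset.mem_inter.2 ⟨hzY, hzC⟩⟩ h1 hYC).trans
    (h.perp_conn hL hS hC' hY hX' ⟨z, Finset.mem_inter.2 ⟨hzY, hzC'⟩⟩ hXC' hYC' h2)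

/-- for circles `C` of one class the perpendicular circles are in one class -/
theorem perp_conn_class (hL : LociAreCircles B) {S : Finset (Finset P)} (hS : TanClosed B S)
    (hSB : S ≠ B) {C C' X X' : Finset P} (hC : C ∈ S) (hC' : C' ∈ S)
    (hX : X ∈ B) (hX' : X' ∈ B) (hXC : (X ∩ C).Nonempty) (hXC' : (X' ∩ C').Nonempty)
    (h1 : perp B X C) (h2 : perp B X' C') (hXS : X ∈ S) : X' ∈ S := by
  classical
  by_contra hX'S
  set S1 := B.filter (fun D => D ∈ S ∧ ∃ Y ∈ B, (Y ∩ D).Nonempty ∧ perp B Y D ∧ Y ∈ S) with hS1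
  have hcl : TanClosed B S1 := by
    refine ⟨Finset.filter_subset _ _, ?_⟩
    intro E hE F hF hEF
    obtain ⟨hEB, hES, Y, hY, hYE, hp, hYS⟩ := Finset.mem_filter.1 hE
    obtain ⟨z, hz⟩ := Finset.card_eq_one.1 hEF
    have hzz : z ∈ E ∩ F := by rw [hz]; exact Finset.mem_singleton_self z
    obtain ⟨hzE, hzF⟩ := Finset.mem_inter.1 hzz
    obtain ⟨Z, hZ, hzZ, hZF⟩ := h.exists_perp hL hF hzF
    have hZne : (Z ∩ F).Nonempty := ⟨z, Finset.mem_inter.2 ⟨hzZ, hzF⟩⟩
    exact Finset.mem_filter.2 ⟨hF, hS.2 E hES F hF hEF, Z, hZ, hZne, hZF,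
      (h.perp_conn_tangent hL hS hEB hF hEF hY hZ hYE hZne hp hZF).1 hYS⟩
  have hne1 : S1.Nonempty := ⟨C, Finset.mem_filter.2 ⟨hS.1 hC, hC, X, hX, hXC, h1, hXS⟩⟩
  have hne' : (B \ S).Nonempty := by
    rw [Finset.sdiff_nonempty]
    intro hsub
    exact hSB (Finset.Subset.antisymm hS.1 hsub)
  have hdis : Disjoint S1 (B \ S) := by
    rw [Finset.disjoint_left]
    intro D hD hD'
    exact (Finset.mem_sdiff.1 hD').2 (Finset.mem_filter.1 hD).2.1
  have hun := h.union_eq hcl hne1 hS.compl hne' hdis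
  have hC'B := hS.1 hC'
  have : C' ∈ S1 ∪ (B \ S) := by rw [hun]; exact hC'B
  rcases Finset.mem_union.1 this with e | e
  · obtain ⟨_, _, Y, hY, hYC, hp, hYS⟩ := Finset.mem_filter.1 e
    exact hX'S ((h.perp_conn hL hS hC'B hY hX' hYC hXC' hp h2).1 hYS)
  · exact (Finset.mem_sdiff.1 e).2 hC'

/-- perpendicular circles which meet are always in one class, or never -/
theorem perp_class (hL : LociAreCircles B) {S : Finset (Finset P)} (hS : TanClosed B S)
    (hne : S.Nonempty) (hSB : S ≠ B) :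
    (∀ C ∈ B, ∀ D ∈ B, (C ∩ D).Nonempty → perp B C D → (C ∈ S ↔ D ∈ S)) ∨
    (∀ C ∈ B, ∀ D ∈ B, (C ∩ D).Nonempty → perp B C D → ¬ (C ∈ S ↔ D ∈ S)) := by
  classical
  have hne' : (B \ S).Nonempty := by
    rw [Finset.sdiff_nonempty]
    intro hsub
    exact hSB (Finset.Subset.antisymm hS.1 hsub)
  have hSB' : B \ S ≠ B := by
    intro e
    obtain ⟨E, hE⟩ := hne
    have h1 : E ∈ B \ S := by rw [e]; exact hS.1 hE
    exact (Finset.mem_sdiff.1 h1).2 hE
  have symm : ∀ C ∈ B, ∀ D ∈ B, (C ∩ D).Nonempty → perp B C D →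
      (D ∩ C).Nonempty ∧ perp B D C := fun C hC D hD hCD hp =>
    ⟨by rw [Finset.inter_comm]; exact hCD, h.perp_symm hL hC hD hCD hp⟩
  obtain ⟨C0, hC0⟩ := hne
  have hC0B := hS.1 hC0
  obtain ⟨z, hz⟩ : C0.Nonempty := Finset.card_pos.1 (by rw [h.card_circle C0 hC0B]; omega)
  obtain ⟨X0, hX0, hzX0, hp0⟩ := h.exists_perp hL hC0B hz
  have hX0C : (X0 ∩ C0).Nonempty := ⟨z, Finset.mem_inter.2 ⟨hzX0, hz⟩⟩
  by_cases hcase : X0 ∈ S
  · left
    have key : ∀ C ∈ S, ∀ D ∈ B, (C ∩ D).Nonempty → perp B C D → D ∈ S := by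
      intro C hC D hD hCD hp
      obtain ⟨e1, e2⟩ := symm C (hS.1 hC) D hD hCD hp
      exact h.perp_conn_class hL hS hSB hC0 hC hX0 hD hX0C e1 hp0 e2 hcase
    intro C hC D hD hCD hp
    obtain ⟨e1, e2⟩ := symm C hC D hD hCD hp
    exact ⟨fun e => key C e D hD hCD hp, fun e => key D e C hC e1 e2⟩
  · right
    have key : ∀ C ∈ S, ∀ D ∈ B, (C ∩ D).Nonempty → perp B C D → D ∉ S := by
      intro C hC D hD hCD hp hDS
      obtain ⟨e1, e2⟩ := symm C (hS.1 hC) D hD hCD hp
      exact hcase (h.perp_conn_class hL hS hSB hC hC0 hD hX0 e1 hX0C e2 hp0 hDS)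
    have key2 : ∀ C ∈ B, C ∉ S → ∀ D ∈ B, (C ∩ D).Nonempty → perp B C D → D ∈ S := by
      intro C hC hCS D hD hCD hp
      by_contra hDS
      obtain ⟨e1, e2⟩ := symm C hC D hD hCD hp
      obtain ⟨e3, e4⟩ := symm X0 hX0 C0 hC0B hX0C hp0
      have h5 := h.perp_conn_class hL hS.compl hSB'
        (C := C) (C' := X0) (X := D) (X' := C0) (Finset.mem_sdiff.2 ⟨hC, hCS⟩)
        (Finset.mem_sdiff.2 ⟨hX0, hcase⟩) hD hC0B e1 e3 e2 e4 (Finset.mem_sdiff.2 ⟨hD, hDS⟩)
      exact (Finset.mem_sdiff.1 h5).2 hC0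
    intro C hC D hD hCD hp hiff
    by_cases hCS : C ∈ S
    · exact key C hCS D hD hCD hp (hiff.1 hCS)
    · exact hCS (hiff.2 (key2 C hC hCS D hD hCD hp))

/-- if perpendicular circles which meet are always in one class, `(n + 1) / 2` is even -/
theorem even_of_same (hL : LociAreCircles B) {S : Finset (Finset P)} (hS : TanClosed B S)
    (hne : S.Nonempty) (hSB : S ≠ B)
    (hsame : ∀ C ∈ B, ∀ D ∈ B, (C ∩ D).Nonempty → perp B C D → (C ∈ S ↔ D ∈ S)) :
    n % 4 ≠ 1 := by
  classical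
  intro hn4
  obtain ⟨C0, hC0⟩ := hne
  have hC0B := hS.1 hC0
  obtain ⟨p, _, q, _, hpq⟩ := Finset.one_lt_card.1
    (show 1 < C0.card by rw [h.card_circle C0 hC0B]; have := h.three_le; omega)
  have hcard := h.class_card hS ⟨C0, hC0⟩ hSB hpq
  have hmem : ∀ D ∈ (thr B p q).filter (fun D => D ∈ S), D ∈ B ∧ p ∈ D ∧ q ∈ D ∧ D ∈ S := by
    intro D hD
    obtain ⟨h1, h2⟩ := Finset.mem_filter.1 hD
    obtain ⟨h3, h4, h5⟩ := Finset.mem_filter.1 h1
    exact ⟨h3, h4, h5, h2⟩
  have hsum : ∑ D ∈ (thr B p q).filter (fun D => D ∈ S), (1 : ZMod 2) = 0 := by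
    apply Finset.sum_involution (fun D _ => locus B D p q)
    · intro D _
      decide
    · intro D hD _ e
      obtain ⟨h1, h2, h3, _⟩ := hmem D hD
      have h4 := inter_locus (B := B) h2 h3
      rw [e, Finset.inter_self] at h4
      have h5 := h.card_circle D h1
      rw [h4, Finset.card_pair hpq] at h5
      have := h.three_le
      omega
    · intro D hD
      obtain ⟨h1, h2, h3, h4⟩ := hmem D hD
      have h5 := hL D h1 p h2 q h3 hpq.symm
      have h6 := h.perp_locus h1 h2 h3 hpq h5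
      exact Finset.mem_filter.2 ⟨Finset.mem_filter.2 ⟨h5, left_mem_locus B D p q,
        right_mem_locus B D p q⟩, (hsame D h1 _ h5
          ⟨p, Finset.mem_inter.2 ⟨h2, left_mem_locus B D p q⟩⟩ h6).1 h4⟩
    · intro D hD
      obtain ⟨h1, h2, h3, _⟩ := hmem D hD
      exact h.locus_locus hL h1 h2 h3 hpq.symm
  rw [Finset.sum_const, nsmul_eq_mul, mul_one, ZMod.natCast_eq_zero_iff] at hsum
  rcases hsum with ⟨k, hk⟩
  omega

end InvPlane

end Pool.Agent.Lib.MP_1a7d7d_co
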